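import Pool.Agent.TH245.Peak.Reg

set_option autoImplicit false

open Metric Filter Topology Set
open scoped ComplexConjugate

namespace Pool.Agent.TH245.Peak

lemma norm_tsum_le_of_erase {ι : Type} {u : ι → ℂ} (hs : Summable (fun n => ‖u n‖)) (k : ι) {c : ℝ}
    (hc : ∀ F : Finset ι, k ∉ F → ∑ n ∈ F, ‖u n‖ ≤ c) : ‖∑' n, u n‖ ≤ ‖u k‖ + c := by
  classical
  refine (norm_tsum_le_tsum_norm hs).trans (hs.tsum_le_of_sum_le fun F => ?_)
  have h1 := hc (F.erase k) (by simp)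
  by_cases hk : k ∈ F
  · rw [← Finset.add_sum_erase _ _ hk]
    linarith
  · rw [Finset.erase_eq_of_notMem hk] at h1
    linarith [norm_nonneg (u k)]

namespace Dat

variable {β κ : ℝ} {ι : Type} (D : Dat β κ ι)

lemma inv_sub_bound {p q : ℂ} (hp : p ≠ 0) (hq : q ≠ 0) :
    ‖p⁻¹ - q⁻¹‖ = ‖p - q‖ / (‖p‖ * ‖q‖) := by
  rw [inv_sub_inv hp hq, norm_div, norm_mul, norm_sub_rev]

lemma T_sub {ζ η : ℂ} (hζ : ‖ζ‖ ≤ 1) (hη : ‖η‖ ≤ 1) {n : ι} (h1 : ζ ≠ D.z n) (h2 : η ≠ D.z n) :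
    ‖D.T n ζ - D.T n η‖ ≤ 2 * D.m n * ‖ζ - η‖ / (‖D.z n - ζ‖ * ‖D.z n - η‖) := by
  have hw := re_w (D.z1 n) hζ
  have hN := norm_w (ζ := ζ) (D.z1 n)
  have hw' := re_w (D.z1 n) hη
  have hN' := norm_w (ζ := η) (D.z1 n)
  have ha : 0 < ‖D.z n - ζ‖ := norm_pos_iff.2 (sub_ne_zero.2 (Ne.symm h1))
  have hb : 0 < ‖D.z n - η‖ := norm_pos_iff.2 (sub_ne_zero.2 (Ne.symm h2))
  have e0 : 1 - conj (D.z n) * ζ - (1 - conj (D.z n) * η) = conj (D.z n) * (η - ζ) := by ring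
  have hd : ‖1 - conj (D.z n) * ζ - (1 - conj (D.z n) * η)‖ = ‖ζ - η‖ := by
    rw [e0, norm_mul, Complex.norm_conj, D.z1 n, one_mul, norm_sub_rev]
  set w := 1 - conj (D.z n) * ζ
  set w' := 1 - conj (D.z n) * η
  have hw0 : w ≠ 0 := by rw [← norm_pos_iff, hN]; exact ha
  have hw0' : w' ≠ 0 := by rw [← norm_pos_iff, hN']; exact hb
  have hs1 := norm_le_add hw (D.s0 n).le
  have hs1' := norm_le_add hw' (D.s0 n).le
  have hws0 : w + (D.s n : ℂ) ≠ 0 := by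
    rw [← norm_pos_iff]; exact (norm_pos_iff.2 hw0).trans_le hs1
  have hws0' : w' + (D.s n : ℂ) ≠ 0 := by
    rw [← norm_pos_iff]; exact (norm_pos_iff.2 hw0').trans_le hs1'
  have e1 : D.T n ζ - D.T n η = (D.m n : ℂ) * ((w⁻¹ - w'⁻¹) +
      ((w + (D.s n : ℂ))⁻¹ - (w' + (D.s n : ℂ))⁻¹)) := by
    unfold T; ring
  rw [e1, norm_mul, Complex.norm_real, Real.norm_of_nonneg (D.m0 n).le]
  have h3 : ‖w⁻¹ - w'⁻¹‖ = ‖ζ - η‖ / (‖D.z n - ζ‖ * ‖D.z n - η‖) := by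
    rw [inv_sub_bound hw0 hw0', hd, hN, hN']
  have h4 : ‖(w + (D.s n : ℂ))⁻¹ - (w' + (D.s n : ℂ))⁻¹‖
      ≤ ‖ζ - η‖ / (‖D.z n - ζ‖ * ‖D.z n - η‖) := by
    rw [inv_sub_bound hws0 hws0']
    have e2 : w + (D.s n : ℂ) - (w' + (D.s n : ℂ)) = w - w' := by ring
    rw [e2, hd]
    rw [hN] at hs1
    rw [hN'] at hs1'
    gcongr
  calc D.m n * _ ≤ D.m n * (‖ζ - η‖ / (‖D.z n - ζ‖ * ‖D.z n - η‖)
        + ‖ζ - η‖ / (‖D.z n - ζ‖ * ‖D.z n - η‖)) := by
        apply mul_le_mul_of_nonneg_left _ (D.m0 n).le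
        refine (norm_add_le _ _).trans ?_
        rw [h3]
        linarith
    _ = _ := by ring

/-- the power identity used below: if `t ≤ A * p ^ β` then `t ≤ A^(1-α) * p^(β-1) * t^α`,
`α = 1/β`. -/
lemma pow_key {β t A p : ℝ} (hβ : 1 < β) (ht : 0 ≤ t) (hA : 0 ≤ A) (hp : 0 < p)
    (h : t ≤ A * p ^ β) : t ≤ A ^ (1 - 1 / β) * p ^ (β - 1) * t ^ (1 / β) := by
  have hβ0 : 0 < β := by linarith
  have hα1 : 1 / β < 1 := by rw [div_lt_one hβ0]; exact hβ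
  rcases ht.eq_or_lt with h0 | h0
  · rw [← h0, Real.zero_rpow (by positivity), mul_zero]
  · have h1 : t = t ^ (1 - 1 / β) * t ^ (1 / β) := by
      rw [← Real.rpow_add h0]; norm_num
    calc t = t ^ (1 - 1 / β) * t ^ (1 / β) := h1
      _ ≤ (A * p ^ β) ^ (1 - 1 / β) * t ^ (1 / β) := by
          apply mul_le_mul_of_nonneg_right _ (by positivity)
          exact Real.rpow_le_rpow ht h (by linarith)
      _ = _ := by
          rw [Real.mul_rpow hA (by positivity), ← Real.rpow_mul hp.le]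
          congr 3
          field_simp

/-- Hölder estimate for nearby points off `E`. -/
lemma holder_near (hκ2 : κ * 2 ^ (β - 1) ≤ 1 / 4) {ζ η : ℂ} (hζ : ‖ζ‖ ≤ 1) (hη : ‖η‖ ≤ 1)
    (hζE : ζ ∉ D.E) (hηE : η ∉ D.E) (ht : ‖ζ - η‖ < κ * ‖1 - ζ‖ ^ β)
    (hyx : ‖1 - η‖ ≤ ‖1 - ζ‖) :
    ‖D.g ζ - D.g η‖ ≤ 5000 ^ 2 * (4 + 2 * 4 ^ (β - 1) + 1 / (2 * κ)) * ‖ζ - η‖ ^ (1 / β) := by
  have hβ := D.hβ
  have hκ := D.hκ
  have hβ0 : 0 < β := by linarith
  have h1 : ζ ≠ 1 := fun h => hζE (by rw [h]; exact mem_insert _ _)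
  have h1' : η ≠ 1 := fun h => hηE (by rw [h]; exact mem_insert _ _)
  have hnz : ∀ n, ζ ≠ D.z n := fun n h => hζE (Or.inr ⟨n, h.symm⟩)
  have hnz' : ∀ n, η ≠ D.z n := fun n h => hηE (Or.inr ⟨n, h.symm⟩)
  obtain ⟨hx0, hx2⟩ := x_bd hζ h1
  obtain ⟨hy0, hy2⟩ := x_bd hη h1'
  obtain ⟨k, hk1, -, hk3⟩ := D.exists_k hζ h1
  obtain ⟨lz1, lz2⟩ := D.h_lower hζ hζE
  obtain ⟨le1, le2⟩ := D.h_lower hη hηE
  have hP1 : 0 < ‖D.h ζ‖ := norm_pos_iff.2 (D.h_ne hζ hζE)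
  have hP2 : 0 < ‖D.h η‖ := norm_pos_iff.2 (D.h_ne hη hηE)
  set t := ‖ζ - η‖ with htdef
  have ht0 : 0 ≤ t := norm_nonneg _
  set x := ‖1 - ζ‖ with hx
  set y := ‖1 - η‖ with hy
  -- `x^β ≤ 2^(β-1) x`
  have hxβ : x ^ β ≤ 2 ^ (β - 1) * x := by
    have : x ^ β = x ^ (β - 1) * x := by
      rw [← Real.rpow_add_one hx0.ne']; congr 1; ring
    rw [this]
    gcongr
  have htx : t ≤ x / 4 := by
    have h2 : κ * x ^ β ≤ κ * (2 ^ (β - 1) * x) := by gcongr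
    have h3 : κ * (2 ^ (β - 1) * x) = (κ * 2 ^ (β - 1)) * x := by ring
    have h4 : (κ * 2 ^ (β - 1)) * x ≤ 1 / 4 * x := by gcongr
    linarith
  have hyx2 : x - t ≤ y := by
    have h2 := norm_sub_norm_le (1 - ζ) (1 - η)
    have e : (1 - ζ) - (1 - η) = η - ζ := by ring
    rw [e, norm_sub_rev η ζ] at h2
    linarith
  set P := ‖D.h ζ‖ * ‖D.h η‖ with hP
  have hP0 : 0 < P := by positivity
  -- the bounds in terms of `P`
  have q1 : 1 / (x * y) ≤ 5000 ^ 2 * P := by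
    have : 1 / (5000 * x) * (1 / (5000 * y)) ≤ P := by
      rw [hP]; exact mul_le_mul lz1 le1 (by positivity) (by positivity)
    have e : 1 / (5000 * x) * (1 / (5000 * y)) = (1 / (x * y)) / 5000 ^ 2 := by
      field_simp
    rw [e, div_le_iff₀ (by norm_num)] at this
    linarith
  have q2 : ∀ n, D.m n ^ 2 / (‖D.z n - ζ‖ * ‖D.z n - η‖) ≤ 5000 ^ 2 * P := by
    intro n
    have ha : 0 < ‖D.z n - ζ‖ := norm_pos_iff.2 (sub_ne_zero.2 (Ne.symm (hnz n)))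
    have hb : 0 < ‖D.z n - η‖ := norm_pos_iff.2 (sub_ne_zero.2 (Ne.symm (hnz' n)))
    have hm := D.m0 n
    have : D.m n / (5000 * ‖D.z n - ζ‖) * (D.m n / (5000 * ‖D.z n - η‖)) ≤ P := by
      rw [hP]; exact mul_le_mul (lz2 n) (le2 n) (by positivity) (by positivity)
    have e : D.m n / (5000 * ‖D.z n - ζ‖) * (D.m n / (5000 * ‖D.z n - η‖))
        = (D.m n ^ 2 / (‖D.z n - ζ‖ * ‖D.z n - η‖)) / 5000 ^ 2 := by
      field_simp
    rw [e, div_le_iff₀ (by norm_num)] at this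
    linarith
  -- difference of the `h`
  have hsz := D.summable_T hζ h1
  have hse := D.summable_T hη h1'
  have hd : D.h ζ - D.h η = ((1 - ζ)⁻¹ - (1 - η)⁻¹) + ∑' n, (D.T n ζ - D.T n η) := by
    rw [hsz.of_norm.tsum_sub hse.of_norm]
    unfold h; ring
  have hsd : Summable (fun n => ‖D.T n ζ - D.T n η‖) :=
    (hsz.add hse).of_nonneg_of_le (fun _ => norm_nonneg _) (fun n => norm_sub_le _ _)
  have b1 : ‖(1 - ζ)⁻¹ - (1 - η)⁻¹‖ ≤ 5000 ^ 2 * P * t := by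
    rw [inv_sub_bound (sub_ne_zero.2 h1.symm) (sub_ne_zero.2 h1'.symm)]
    have e : (1 - ζ) - (1 - η) = -(ζ - η) := by ring
    rw [e, norm_neg]
    have : t / (x * y) = 1 / (x * y) * t := by ring
    rw [this]
    gcongr
  have b2 : ∀ F : Finset ι, k ∉ F → ∑ n ∈ F, ‖D.T n ζ - D.T n η‖ ≤
      5000 ^ 2 * P * (t * x ^ (1 - β) * (1 / (2 * κ))) := by
    intro F hF
    have hxβ0 : 0 < x ^ β := by positivity
    have h3 : ∀ n ∈ F, ‖D.T n ζ - D.T n η‖ ≤ 2 * t / (κ * x ^ β) * (D.m n / ‖D.z n - ζ‖) := by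
      intro n hn
      have hnk : n ≠ k := fun h => hF (h ▸ hn)
      have h4 := (hk1 n hnk).trans (D.dist_lower ζ n)
      have ha : 0 < ‖D.z n - ζ‖ := norm_pos_iff.2 (sub_ne_zero.2 (Ne.symm (hnz n)))
      have hb : κ * x ^ β ≤ ‖D.z n - η‖ := by
        have h5 := norm_sub_norm_le (D.z n - ζ) (D.z n - η)
        have e : D.z n - ζ - (D.z n - η) = η - ζ := by ring
        rw [e, norm_sub_rev η ζ] at h5
        have h6 : t < κ * x ^ β := ht
        linarith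
      refine (D.T_sub hζ hη (hnz n) (hnz' n)).trans ?_
      have hm := D.m0 n
      calc 2 * D.m n * t / (‖D.z n - ζ‖ * ‖D.z n - η‖)
          ≤ 2 * D.m n * t / (‖D.z n - ζ‖ * (κ * x ^ β)) := by gcongr
        _ = _ := by field_simp
    refine (Finset.sum_le_sum h3).trans ?_
    rw [← Finset.mul_sum]
    have h4 := hk3 F hF
    calc 2 * t / (κ * x ^ β) * ∑ n ∈ F, D.m n / ‖D.z n - ζ‖
        ≤ 2 * t / (κ * x ^ β) * (1 / (4 * x)) := by gcongr
      _ = (1 / (x * x)) * (t * (x / x ^ β) * (1 / (2 * κ))) := by field_simp; ring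
      _ ≤ (1 / (x * y)) * (t * (x / x ^ β) * (1 / (2 * κ))) := by gcongr
      _ ≤ (5000 ^ 2 * P) * (t * (x / x ^ β) * (1 / (2 * κ))) := by gcongr
      _ = _ := by
          have : x / x ^ β = x ^ (1 - β) := by
            rw [Real.rpow_sub hx0, Real.rpow_one]
          rw [this]
  have b3 : ‖D.T k ζ - D.T k η‖ ≤ 5000 ^ 2 * P * (t + 2 * 4 ^ (β - 1) * (t * x ^ (1 - β))) := by
    have hT := D.T_sub hζ hη (hnz k) (hnz' k)
    have hm := D.m0 k
    have hm32 := D.m_le k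
    have hρ := D.ρ0 k
    have ha : 0 < ‖D.z k - ζ‖ := norm_pos_iff.2 (sub_ne_zero.2 (Ne.symm (hnz k)))
    have hb : 0 < ‖D.z k - η‖ := norm_pos_iff.2 (sub_ne_zero.2 (Ne.symm (hnz' k)))
    rcases le_or_gt (x / 4) (D.ρ k) with hc | hc
    · have h3 : 2 * D.m k * t / (‖D.z k - ζ‖ * ‖D.z k - η‖)
          = (D.m k ^ 2 / (‖D.z k - ζ‖ * ‖D.z k - η‖)) * (2 * t / D.m k) := by
        field_simp
      rw [h3] at hT
      have h4 : (D.m k ^ 2 / (‖D.z k - ζ‖ * ‖D.z k - η‖)) * (2 * t / D.m k)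
          ≤ 5000 ^ 2 * P * (2 * t / D.m k) := by
        apply mul_le_mul_of_nonneg_right (q2 k) (by positivity)
      have h5 : 2 * t / D.m k ≤ 2 * 4 ^ (β - 1) * (t * x ^ (1 - β)) := by
        have h6 : (x / 4) ^ (β - 1) ≤ D.m k := by
          unfold m
          exact Real.rpow_le_rpow (by positivity) hc (by linarith)
        have h7 : (x / 4) ^ (β - 1) = x ^ (β - 1) / 4 ^ (β - 1) :=
          Real.div_rpow hx0.le (by norm_num) _
        have h8 : x ^ (1 - β) = (x ^ (β - 1))⁻¹ := by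
          rw [← Real.rpow_neg hx0.le]; congr 1; ring
        have h9 : 0 < x ^ (β - 1) := by positivity
        have h10 : (0 : ℝ) < 4 ^ (β - 1) := by positivity
        calc 2 * t / D.m k ≤ 2 * t / ((x / 4) ^ (β - 1)) := by gcongr
          _ = _ := by rw [h7, h8]; field_simp
      have h11 : 0 ≤ 5000 ^ 2 * P := by positivity
      calc ‖D.T k ζ - D.T k η‖ ≤ 5000 ^ 2 * P * (2 * t / D.m k) := hT.trans h4
        _ ≤ 5000 ^ 2 * P * (t + 2 * 4 ^ (β - 1) * (t * x ^ (1 - β))) := by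
            apply mul_le_mul_of_nonneg_left _ h11
            linarith
    · have h3 := D.dist_lower ζ k
      have h4 := D.dist_lower η k
      rw [abs_le] at h3 h4
      have h5 : 3 / 4 * x ≤ ‖D.z k - ζ‖ := by linarith [h3.2]
      have h6 : x / 2 ≤ ‖D.z k - η‖ := by linarith [h4.2]
      have h7 : 2 * D.m k * t / (‖D.z k - ζ‖ * ‖D.z k - η‖) ≤ 5000 ^ 2 * P * t := by
        calc 2 * D.m k * t / (‖D.z k - ζ‖ * ‖D.z k - η‖)
            ≤ 2 * (1 / 32) * t / ((3 / 4 * x) * (x / 2)) := by gcongr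
          _ = (1 / (x * x)) * (t * (1 / 6)) := by field_simp; ring
          _ ≤ (1 / (x * y)) * (t * 1) := by gcongr; norm_num
          _ ≤ (5000 ^ 2 * P) * (t * 1) := by gcongr
          _ = _ := by ring
      have h8 : 0 ≤ 5000 ^ 2 * P * (2 * 4 ^ (β - 1) * (t * x ^ (1 - β))) := by positivity
      calc ‖D.T k ζ - D.T k η‖ ≤ 5000 ^ 2 * P * t := hT.trans h7
        _ ≤ _ := by rw [mul_add]; linarith
  have b4 : ‖D.h ζ - D.h η‖ ≤ P * (5000 ^ 2 * (2 * t + (2 * 4 ^ (β - 1) + 1 / (2 * κ)) *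
      (t * x ^ (1 - β)))) := by
    rw [hd]
    refine (norm_add_le _ _).trans ?_
    have := norm_tsum_le_of_erase hsd k b2
    calc _ ≤ 5000 ^ 2 * P * t + (5000 ^ 2 * P * (t + 2 * 4 ^ (β - 1) * (t * x ^ (1 - β)))
          + 5000 ^ 2 * P * (t * x ^ (1 - β) * (1 / (2 * κ)))) := by linarith
      _ = _ := by ring
  -- the powers
  have p1 : t * x ^ (1 - β) ≤ t ^ (1 / β) := by
    have h2 := pow_key hβ ht0 hκ.le hx0 ht.le
    have h3 : κ ^ (1 - 1 / β) ≤ 1 := by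
      apply Real.rpow_le_one hκ.le _ (by
        have : 1 / β < 1 := by rw [div_lt_one hβ0]; exact hβ
        linarith)
      have h4 : (1 : ℝ) ≤ 2 ^ (β - 1) := Real.one_le_rpow (by norm_num) (by linarith)
      nlinarith
    have h5 : x ^ (β - 1) * x ^ (1 - β) = 1 := by
      rw [← Real.rpow_add hx0]; norm_num
    calc t * x ^ (1 - β) ≤ (κ ^ (1 - 1 / β) * x ^ (β - 1) * t ^ (1 / β)) * x ^ (1 - β) := by gcongr
      _ = κ ^ (1 - 1 / β) * (x ^ (β - 1) * x ^ (1 - β)) * t ^ (1 / β) := by ring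
      _ ≤ 1 * 1 * t ^ (1 / β) := by
          rw [h5]
          gcongr
      _ = _ := by ring
  have p2 : t ≤ 2 * t ^ (1 / β) := by
    have h2 : t ≤ 2 := by
      calc t ≤ ‖ζ‖ + ‖η‖ := norm_sub_le _ _
        _ ≤ 2 := by linarith
    have h3 := pow_key hβ ht0 (A := 2) (by norm_num) (p := 1) one_pos (by rw [Real.one_rpow]; linarith)
    rw [Real.one_rpow, mul_one] at h3
    have h4 : (2 : ℝ) ^ (1 - 1 / β) ≤ 2 := by
      calc (2 : ℝ) ^ (1 - 1 / β) ≤ 2 ^ (1 : ℝ) := by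
            apply Real.rpow_le_rpow_of_exponent_le (by norm_num)
            have : 0 < 1 / β := by positivity
            linarith
        _ = 2 := by norm_num
    refine h3.trans ?_
    gcongr
  rw [D.g_nE hζE, D.g_nE hηE, inv_sub_bound (D.h_ne hζ hζE) (D.h_ne hη hηE), ← hP]
  rw [div_le_iff₀ hP0]
  refine b4.trans ?_
  rw [mul_comm P]
  apply mul_le_mul_of_nonneg_right _ hP0.le
  have c1 : 0 ≤ 2 * 4 ^ (β - 1) + 1 / (2 * κ) := by positivity
  have c2 := mul_le_mul_of_nonneg_left p1 c1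
  nlinarith

/-- Hölder estimate when one of the two points is one of the `z n`. -/
lemma holder_z {A : ℝ} (hA : 0 ≤ A) {η : ℂ} (hη : ‖η‖ ≤ 1) (n : ι)
    (ht : ‖D.z n - η‖ ≤ A * D.ρ n ^ β) :
    ‖D.g η‖ ≤ 5000 * A ^ (1 - 1 / β) * ‖D.z n - η‖ ^ (1 / β) := by
  have h1 := D.g_le hη n
  have hm := D.m0 n
  have h2 := pow_key D.hβ (norm_nonneg _) hA (D.ρ0 n) ht
  have h3 : D.ρ n ^ (β - 1) = D.m n := rfl
  rw [h3] at h2
  refine h1.trans ?_
  rw [div_le_iff₀ hm]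
  calc 5000 * ‖D.z n - η‖ ≤ 5000 * (A ^ (1 - 1 / β) * D.m n * ‖D.z n - η‖ ^ (1 / β)) := by
        linarith
    _ = _ := by ring

/-- The Hölder estimate for `g`. -/
theorem g_holder (hκ2 : κ * 2 ^ (β - 1) ≤ 1 / 4) :
    ∃ C : ℝ, ∀ ζ : ℂ, ‖ζ‖ ≤ 1 → ∀ η : ℂ, ‖η‖ ≤ 1 →
      ‖D.g ζ - D.g η‖ ≤ C * ‖ζ - η‖ ^ (1 / β) := by
  have hβ := D.hβ
  have hκ := D.hκ
  have hβ0 : 0 < β := by linarith
  set C1 : ℝ := 5000 ^ 2 * (4 + 2 * 4 ^ (β - 1) + 1 / (2 * κ)) with hC1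
  set C2 : ℝ := 10000 * (κ ^ (1 / β))⁻¹ with hC2
  set C3 : ℝ := 5000 * κ ^ (1 - 1 / β) with hC3
  set C4 : ℝ := 5000 * (κ * 2 ^ β) ^ (1 - 1 / β) with hC4
  have hC10 : 0 ≤ C1 := by positivity
  have hC20 : 0 ≤ C2 := by positivity
  have hC30 : 0 ≤ C3 := by positivity
  have hC40 : 0 ≤ C4 := by positivity
  -- ordered version
  have main : ∀ ζ : ℂ, ‖ζ‖ ≤ 1 → ∀ η : ℂ, ‖η‖ ≤ 1 → ‖1 - η‖ ≤ ‖1 - ζ‖ →
      ‖D.g ζ - D.g η‖ ≤ (C1 + C2 + C3 + C4) * ‖ζ - η‖ ^ (1 / β) := by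
    intro ζ hζ η hη hyx
    have hX : 0 ≤ ‖ζ - η‖ ^ (1 / β) := by positivity
    rcases le_or_gt (κ * ‖1 - ζ‖ ^ β) ‖ζ - η‖ with hc | hc
    · -- far points
      have h1 := D.g_le_one hζ
      have h2 := D.g_le_one hη
      have h3 : ‖1 - ζ‖ * κ ^ (1 / β) ≤ ‖ζ - η‖ ^ (1 / β) := by
        have h4 := Real.rpow_le_rpow (z := 1 / β) (by positivity) hc (by positivity)
        rw [Real.mul_rpow hκ.le (by positivity), ← Real.rpow_mul (norm_nonneg _),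
          mul_one_div_cancel hβ0.ne', Real.rpow_one] at h4
        linarith
      have hκp : 0 < κ ^ (1 / β) := by positivity
      have h5 : ‖1 - ζ‖ ≤ (κ ^ (1 / β))⁻¹ * ‖ζ - η‖ ^ (1 / β) := by
        rw [inv_mul_eq_div, le_div_iff₀ hκp]
        exact h3
      calc ‖D.g ζ - D.g η‖ ≤ ‖D.g ζ‖ + ‖D.g η‖ := norm_sub_le _ _
        _ ≤ 10000 * ‖1 - ζ‖ := by linarith
        _ ≤ 10000 * ((κ ^ (1 / β))⁻¹ * ‖ζ - η‖ ^ (1 / β)) := by linarith
        _ = C2 * ‖ζ - η‖ ^ (1 / β) := by rw [hC2]; ring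
        _ ≤ _ := by
          apply mul_le_mul_of_nonneg_right _ hX
          linarith
    · have hx0 : 0 < ‖1 - ζ‖ := by
        by_contra hcon
        have h0 : ‖1 - ζ‖ = 0 := le_antisymm (not_lt.1 hcon) (norm_nonneg _)
        rw [h0, Real.zero_rpow hβ0.ne', mul_zero] at hc
        exact absurd hc (not_lt.2 (norm_nonneg _))
      have h1 : ζ ≠ 1 := by
        rintro rfl
        simp at hx0
      obtain ⟨-, hx2⟩ := x_bd hζ h1
      by_cases hζE : ζ ∈ D.E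
      · rcases hζE with h | ⟨n, rfl⟩
        · exact absurd h h1
        · rw [D.g_E (Or.inr ⟨n, rfl⟩), zero_sub, norm_neg]
          rw [D.zρ n] at hc
          have := D.holder_z hκ.le hη n hc.le
          refine this.trans ?_
          apply mul_le_mul_of_nonneg_right _ hX
          linarith
      · by_cases hηE : η ∈ D.E
        · -- `η` cannot be `1`
          have hxβ : ‖1 - ζ‖ ^ β ≤ 2 ^ (β - 1) * ‖1 - ζ‖ := by
            have : ‖1 - ζ‖ ^ β = ‖1 - ζ‖ ^ (β - 1) * ‖1 - ζ‖ := by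
              rw [← Real.rpow_add_one hx0.ne']; congr 1; ring
            rw [this]
            gcongr
          have htx : ‖ζ - η‖ ≤ ‖1 - ζ‖ / 4 := by
            have h2 : κ * ‖1 - ζ‖ ^ β ≤ κ * (2 ^ (β - 1) * ‖1 - ζ‖) := by gcongr
            have h3 : κ * (2 ^ (β - 1) * ‖1 - ζ‖) = (κ * 2 ^ (β - 1)) * ‖1 - ζ‖ := by ring
            have h4 : (κ * 2 ^ (β - 1)) * ‖1 - ζ‖ ≤ 1 / 4 * ‖1 - ζ‖ := by gcongr
            linarith
          have hyx2 : ‖1 - ζ‖ - ‖ζ - η‖ ≤ ‖1 - η‖ := by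
            have h2 := norm_sub_norm_le (1 - ζ) (1 - η)
            have e : (1 - ζ) - (1 - η) = η - ζ := by ring
            rw [e, norm_sub_rev η ζ] at h2
            linarith
          rcases id hηE with h | ⟨n, hn⟩
          · rw [h, sub_self, norm_zero] at hyx2
            rw [h] at htx
            linarith
          · rw [D.g_E hηE, sub_zero]
            have hρ : ‖1 - ζ‖ ≤ 2 * D.ρ n := by
              rw [← D.zρ n, hn]; linarith
            have h2 : ‖D.z n - ζ‖ ≤ (κ * 2 ^ β) * D.ρ n ^ β := by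
              rw [hn, norm_sub_rev]
              calc ‖ζ - η‖ ≤ κ * ‖1 - ζ‖ ^ β := hc.le
                _ ≤ κ * (2 * D.ρ n) ^ β := by gcongr
                _ = _ := by rw [Real.mul_rpow (by norm_num) (D.ρ0 n).le]; ring
            have h3 := D.holder_z (by positivity) hζ n h2
            rw [hn, norm_sub_rev η ζ] at h3
            refine h3.trans ?_
            apply mul_le_mul_of_nonneg_right _ hX
            linarith
        · refine (D.holder_near hκ2 hζ hη hζE hηE hc hyx).trans ?_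
          apply mul_le_mul_of_nonneg_right _ hX
          linarith
  refine ⟨C1 + C2 + C3 + C4, fun ζ hζ η hη => ?_⟩
  rcases le_total ‖1 - η‖ ‖1 - ζ‖ with h | h
  · exact main ζ hζ η hη h
  · rw [norm_sub_rev, norm_sub_rev ζ η]
    exact main η hη ζ hζ h

/-- `E` is a peak set. -/
theorem peak (hκ2 : κ * 2 ^ (β - 1) ≤ 1 / 4) : D.E ∈ PeakSets (1 / β) := by
  refine ⟨D.isClosed_E, D.E_sub, fun ζ => 1 - D.g ζ / 2, ⟨?_, ?_, ?_⟩, ?_, ?_⟩
  · exact (D.g_diff.div_const 2).const_sub 1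
  · exact continuousOn_const.sub (D.g_cont.div_const 2)
  · obtain ⟨C, hC⟩ := D.g_holder hκ2
    refine ⟨C / 2, fun ζ hζ η hη => ?_⟩
    have h1 := hC ζ (mem_sphere_zero_iff_norm.1 hζ).le η (mem_sphere_zero_iff_norm.1 hη).le
    have e : (1 - D.g ζ / 2) - (1 - D.g η / 2) = -((D.g ζ - D.g η) / 2) := by ring
    rw [e, norm_neg, norm_div, Complex.norm_ofNat]
    calc ‖D.g ζ - D.g η‖ / 2 ≤ (C * ‖ζ - η‖ ^ (1 / β)) / 2 := by gcongr
      _ = _ := by ring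
  · intro ζ hζ
    show 1 - D.g ζ / 2 = 1
    rw [D.g_E hζ]; simp
  · intro ζ hζ hE
    have hζ1 : ‖ζ‖ ≤ 1 := (mem_sphere_zero_iff_norm.1 hζ).le
    have h0 := D.h_ne hζ1 hE
    have hre := D.h_re hζ1 hE
    show ‖1 - D.g ζ / 2‖ < 1
    rw [D.g_nE hE]
    have e : 1 - (D.h ζ)⁻¹ / 2 = (D.h ζ - 1 / 2) / D.h ζ := by
      field_simp
    rw [e, norm_div, div_lt_one (norm_pos_iff.2 h0)]
    rw [← sq_lt_sq₀ (norm_nonneg _) (norm_nonneg _), ← Complex.normSq_eq_norm_sq,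
      ← Complex.normSq_eq_norm_sq, Complex.normSq_apply, Complex.normSq_apply]
    have e1 : (D.h ζ - 1 / 2).re = (D.h ζ).re - 1 / 2 := by simp
    have e2 : (D.h ζ - 1 / 2).im = (D.h ζ).im := by simp
    rw [e1, e2]
    nlinarith

end Dat

end Pool.Agent.TH245.Peak
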