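import Pool.Agent.TH245.Peak.Jen

set_option autoImplicit false

open Metric Filter Topology Set MeasureTheory

namespace Pool.Agent.TH245.Peak

/-- A sum over finitely many disjoint intervals is bounded by Jensen's inequality. -/
theorem sum_le_of_bounds {u : ℝ → ℝ} {K L : ℝ} (hu : IntervalIntegrable u volume 0 (2 * Real.pi))
    (hK : -K ≤ ∫ θ in (0 : ℝ)..(2 * Real.pi), u θ)
    (n : ℕ) (a b c : ℕ → ℝ) (ha : ∀ j, 0 < a j) (hab : ∀ j, a j ≤ b j)
    (hb : ∀ j, b j ≤ 2 * Real.pi)
    (hdis : ∀ i j, i ≠ j → Disjoint (Icc (a i) (b i)) (Icc (a j) (b j)))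
    (hL : ∀ᵐ θ : ℝ, u θ ≤ L)
    (hc : ∀ j < n, ∀ᵐ θ : ℝ, θ ∈ Icc (a j) (b j) → u θ ≤ L - c j) :
    ∑ j ∈ Finset.range n, c j * (b j - a j) ≤ K + L * (2 * Real.pi) := by
  have hpi : 0 < Real.pi := Real.pi_pos
  set v : ℝ → ℝ := fun θ => L - ∑ j ∈ Finset.range n, (Icc (a j) (b j)).indicator (fun _ => c j) θ
    with hv
  have hi : ∀ j, IntervalIntegrable ((Icc (a j) (b j)).indicator (fun _ => c j)) volume 0
      (2 * Real.pi) := by
    intro j
    rw [intervalIntegrable_iff]
    exact (intervalIntegrable_iff.1 (_root_.intervalIntegrable_const (c := c j))).indicator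
      measurableSet_Icc
  have hs : IntervalIntegrable (fun θ => ∑ j ∈ Finset.range n,
      (Icc (a j) (b j)).indicator (fun _ => c j) θ) volume 0 (2 * Real.pi) := by
    have h := IntervalIntegrable.sum (Finset.range n) (fun j _ => hi j)
    have e : (fun θ => ∑ j ∈ Finset.range n, (Icc (a j) (b j)).indicator (fun _ => c j) θ)
        = ∑ j ∈ Finset.range n, (Icc (a j) (b j)).indicator (fun _ => c j) := by
      funext θ
      rw [Finset.sum_apply]
    rw [e]
    exact h
  have hvi : IntervalIntegrable v volume 0 (2 * Real.pi) :=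
    _root_.intervalIntegrable_const.sub hs
  have hle : ∀ᵐ θ : ℝ, u θ ≤ v θ := by
    have h1 : ∀ᵐ θ : ℝ, ∀ j < n, θ ∈ Icc (a j) (b j) → u θ ≤ L - c j := by
      rw [ae_all_iff]
      intro j
      by_cases hj : j < n
      · filter_upwards [hc j hj] with θ h _
        exact h
      · exact Eventually.of_forall fun θ h => absurd h hj
    filter_upwards [h1, hL] with θ h2 h3
    by_cases hex : ∃ j < n, θ ∈ Icc (a j) (b j)
    · obtain ⟨j, hj, hθ⟩ := hex
      have h4 : ∑ i ∈ Finset.range n, (Icc (a i) (b i)).indicator (fun _ => c i) θ = c j := by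
        rw [Finset.sum_eq_single j]
        · exact indicator_of_mem hθ _
        · intro i _ hij
          apply indicator_of_notMem
          intro hi
          exact (Set.disjoint_left.1 (hdis i j hij)) hi hθ
        · intro h; exact absurd (Finset.mem_range.2 hj) h
      simp only [hv]
      rw [h4]
      exact h2 j hj hθ
    · push Not at hex
      have h4 : ∑ i ∈ Finset.range n, (Icc (a i) (b i)).indicator (fun _ => c i) θ = 0 := by
        apply Finset.sum_eq_zero
        intro i hi
        exact indicator_of_notMem (hex i (Finset.mem_range.1 hi)) _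
      simp only [hv]
      rw [h4, sub_zero]
      exact h3
  have h5 : ∫ θ in (0 : ℝ)..(2 * Real.pi), u θ ≤ ∫ θ in (0 : ℝ)..(2 * Real.pi), v θ :=
    intervalIntegral.integral_mono_ae (by positivity) hu hvi hle
  have h6 : ∫ θ in (0 : ℝ)..(2 * Real.pi), v θ
      = L * (2 * Real.pi) - ∑ j ∈ Finset.range n, c j * (b j - a j) := by
    simp only [hv]
    rw [intervalIntegral.integral_sub _root_.intervalIntegrable_const hs,
      intervalIntegral.integral_finsetSum (fun j _ => hi j)]
    congr 1
    · rw [intervalIntegral.integral_const, smul_eq_mul]; ring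
    · apply Finset.sum_congr rfl
      intro j _
      rw [intervalIntegral.integral_of_le (by positivity),
        setIntegral_indicator measurableSet_Icc]
      have h7 : Ioc 0 (2 * Real.pi) ∩ Icc (a j) (b j) = Icc (a j) (b j) := by
        rw [Set.inter_eq_right]
        intro x hx
        exact ⟨(ha j).trans_le hx.1, hx.2.trans (hb j)⟩
      rw [h7, setIntegral_const, smul_eq_mul]
      rw [Measure.real, Real.volume_Icc, ENNReal.toReal_ofReal (by linarith [hab j])]
      ring
  rw [h6] at h5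
  linarith

/-- Non-membership in `Z(G_α)`: along the intervals `[3r/2, 2r]`, `r = 4^{-(j+1)}`, the set `E` is
`ℓ_j`-dense, and `∑ r_j ℓ_j^{-α} = ∞`. -/
theorem not_zeroSet {α : ℝ} (hα : 0 < α) {E : Set ℂ} (J : ℕ) (ℓ : ℕ → ℝ)
    (hℓ : ∀ j, 0 < ℓ j)
    (hcov : ∀ j, ∀ θ ∈ Icc (3 / 2 * (1 / 4 : ℝ) ^ (j + J + 1)) (2 * (1 / 4 : ℝ) ^ (j + J + 1)),
      ∃ ζ ∈ E, ‖Complex.exp (θ * Complex.I) - ζ‖ ≤ ℓ j)
    (hdiv : ¬ Summable (fun j => (1 / 4 : ℝ) ^ (j + J + 1) * (ℓ j) ^ (-α))) :
    E ∉ ZeroSets α := by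
  rintro ⟨-, hEs, F, ⟨hF, C₀, hC₀⟩, hne, hz⟩
  apply hdiv
  -- positive constant
  set C : ℝ := |C₀| + 1 with hC
  have hCpos : 0 < C := by positivity
  have hC' : ∀ n : ℕ, ∀ z ∈ ball (0 : ℂ) 1,
      ‖iteratedDeriv n F z‖ ≤ C ^ (n + 1) * (n.factorial : ℝ) ^ (1 + 1 / α) := by
    intro n z hzb
    refine (hC₀ n z hzb).trans ?_
    have h1 : C₀ ^ (n + 1) ≤ C ^ (n + 1) :=
      calc C₀ ^ (n + 1) ≤ |C₀| ^ (n + 1) := by rw [← abs_pow]; exact le_abs_self _
        _ ≤ C ^ (n + 1) := by
          apply pow_le_pow_left₀ (abs_nonneg _)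
          rw [hC]; linarith
    exact mul_le_mul_of_nonneg_right h1 (by positivity)
  obtain ⟨K, hK⟩ := jensen_lower hF hne
  set c : ℝ := (Real.exp 1 * C) ^ (-α) with hc
  have hc0 : 0 < c := by positivity
  set L : ℝ := Real.log (C * Real.exp 1) with hL
  have hCe : 0 < C * Real.exp 1 := by positivity
  have hL0 : 0 ≤ L := by
    apply Real.log_nonneg
    have h1 : 1 ≤ C := by rw [hC]; linarith [abs_nonneg C₀]
    have h2 : 1 ≤ Real.exp 1 := by linarith [Real.add_one_le_exp (1 : ℝ)]
    nlinarith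
  -- basic bounds
  have hFC : ∀ z ∈ ball (0 : ℂ) 1, ‖F z‖ ≤ C * Real.exp 1 := by
    intro z hzb
    have h1 := hC' 0 z hzb
    simp only [iteratedDeriv_zero, Nat.factorial_zero, Nat.cast_one, Real.one_rpow, mul_one,
      zero_add, pow_one] at h1
    have h2 : 1 ≤ Real.exp 1 := by linarith [Real.add_one_le_exp (1 : ℝ)]
    nlinarith
  set r : ℕ → ℝ := fun j => (1 / 4 : ℝ) ^ (j + J + 1) with hr
  have hr0 : ∀ j, 0 < r j := fun j => by positivity
  have hr1 : ∀ j, r j ≤ 1 / 4 := by
    intro j
    calc r j ≤ (1 / 4 : ℝ) ^ 1 := by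
          apply pow_le_pow_of_le_one (by norm_num) (by norm_num) (by omega)
      _ = 1 / 4 := by norm_num
  have hpi3 : 3 < Real.pi := Real.pi_gt_three
  -- the main inequality for fixed radius
  have main : ∀ n : ℕ, ∀ R : ℝ, 1 / 2 ≤ R → R < 1 →
      ∑ j ∈ Finset.range n, (c * ((1 - R) + ℓ j) ^ (-α)) * (2 * r j - 3 / 2 * r j)
        ≤ K + L * (2 * Real.pi) := by
    intro n R hR hR1
    have hR0 : 0 < R := by linarith
    have hball : ∀ θ : ℝ, circleMap 0 R θ ∈ ball (0 : ℂ) 1 := by
      intro θ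
      rw [mem_ball_zero_iff, norm_circleMap_zero, abs_of_pos hR0]
      exact hR1
    have hint : IntervalIntegrable (fun θ => Real.log ‖F (circleMap 0 R θ)‖) volume 0
        (2 * Real.pi) := by
      have h1 : MeromorphicOn F (sphere 0 |R|) := by
        intro z hzs
        have : z ∈ ball (0 : ℂ) 1 := by
          rw [mem_ball_zero_iff]
          rw [mem_sphere_zero_iff_norm, abs_of_pos hR0] at hzs
          linarith
        exact (hF.analyticOnNhd isOpen_ball z this).meromorphicAt
      exact h1.circleIntegrable_log_norm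
    have hae := ae_ne_zero hF hne hR0 hR1
    refine sum_le_of_bounds hint (hK R hR hR1) n (fun j => 3 / 2 * r j) (fun j => 2 * r j)
      (fun j => c * ((1 - R) + ℓ j) ^ (-α)) (fun j => by have := hr0 j; positivity)
      (fun j => by have := hr0 j; linarith) (fun j => by have := hr1 j; linarith) ?_ ?_ ?_
    · -- disjointness
      have hlt : ∀ i j, i < j → Disjoint (Icc (3 / 2 * r i) (2 * r i))
          (Icc (3 / 2 * r j) (2 * r j)) := by
        intro i j hij
        rw [Set.disjoint_left]
        intro x hx hx'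
        have h1 : r j ≤ 1 / 4 * r i := by
          have : r j ≤ (1 / 4 : ℝ) ^ (i + J + 1 + 1) := by
            apply pow_le_pow_of_le_one (by norm_num) (by norm_num) (by omega)
          calc r j ≤ (1 / 4 : ℝ) ^ (i + J + 1 + 1) := this
            _ = 1 / 4 * r i := by rw [hr]; ring
        have h2 := hx.1
        have h3 := hx'.2
        have h4 := hr0 i
        linarith
      intro i j hij
      rcases lt_or_gt_of_ne hij with h | h
      · exact hlt i j h
      · exact (hlt j i h).symm
    · filter_upwards [hae] with θ hθ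
      exact Real.log_le_log (norm_pos_iff.2 hθ) (hFC _ (hball θ))
    · intro j _
      filter_upwards [hae] with θ hθ hmem
      obtain ⟨ζ, hζE, hζ⟩ := hcov j θ hmem
      have hsm := gevrey_small hα hCpos hF hC' (hEs hζE) (fun n => hz n ζ hζE) _ (hball θ)
      have hd : ‖circleMap 0 R θ - ζ‖ ≤ (1 - R) + ℓ j := by
        have e : circleMap 0 R θ - ζ
            = (Complex.exp (θ * Complex.I) - ζ) - ((1 - R : ℝ) : ℂ) * Complex.exp (θ * Complex.I) := by
          rw [circleMap_zero]; push_cast; ring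
        rw [e]
        refine (norm_sub_le _ _).trans ?_
        rw [norm_mul, Complex.norm_exp_ofReal_mul_I, mul_one, Complex.norm_real,
          Real.norm_of_nonneg (by linarith)]
        linarith
      have hd0 : 0 < ‖circleMap 0 R θ - ζ‖ := by
        rw [norm_pos_iff, sub_ne_zero]
        intro h
        have h1 := hball θ
        have h2 := hEs hζE
        rw [h, mem_ball_zero_iff] at h1
        rw [mem_sphere_zero_iff_norm] at h2
        linarith
      have h1 : Real.log ‖F (circleMap 0 R θ)‖ ≤ L - c * ‖circleMap 0 R θ - ζ‖ ^ (-α) := by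
        have h2 := Real.log_le_log (norm_pos_iff.2 hθ) hsm
        rw [Real.log_mul hCe.ne' (Real.exp_pos _).ne', Real.log_exp] at h2
        linarith
      refine h1.trans ?_
      have h3 : ((1 - R) + ℓ j) ^ (-α) ≤ ‖circleMap 0 R θ - ζ‖ ^ (-α) :=
        Real.rpow_le_rpow_of_nonpos hd0 hd (by linarith)
      have h4 := mul_le_mul_of_nonneg_left h3 hc0.le
      linarith
  -- let the radius tend to one
  have lim : ∀ n : ℕ, ∑ j ∈ Finset.range n, (c * (ℓ j) ^ (-α)) * (2 * r j - 3 / 2 * r j)
        ≤ K + L * (2 * Real.pi) := by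
    intro n
    have h1 : Tendsto (fun R : ℝ => ∑ j ∈ Finset.range n,
        (c * ((1 - R) + ℓ j) ^ (-α)) * (2 * r j - 3 / 2 * r j)) (𝓝[<] 1)
        (𝓝 (∑ j ∈ Finset.range n, (c * ((1 - 1) + ℓ j) ^ (-α)) * (2 * r j - 3 / 2 * r j))) := by
      apply Tendsto.mono_left _ nhdsWithin_le_nhds
      apply tendsto_finsetSum
      intro j _
      apply Tendsto.mul_const
      apply Tendsto.const_mul
      apply Tendsto.rpow_const
      · apply Continuous.tendsto
        fun_prop
      · left
        have := hℓ j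
        linarith
    have h2 := le_of_tendsto h1 (by
      filter_upwards [Ioo_mem_nhdsLT (show (1 / 2 : ℝ) < 1 by norm_num)] with R hR
      exact main n R hR.1.le hR.2)
    simpa using h2
  apply summable_of_sum_range_le (c := (K + L * (2 * Real.pi)) * (2 / c))
  · intro j
    have := hℓ j
    positivity
  · intro n
    have h1 := lim n
    have h2 : ∑ j ∈ Finset.range n, (c * (ℓ j) ^ (-α)) * (2 * r j - 3 / 2 * r j)
        = c / 2 * ∑ j ∈ Finset.range n, (1 / 4 : ℝ) ^ (j + J + 1) * (ℓ j) ^ (-α) := by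
      rw [Finset.mul_sum]
      apply Finset.sum_congr rfl
      intro j _
      simp only [hr]
      ring
    rw [h2] at h1
    have h3 := mul_le_mul_of_nonneg_right h1 (show 0 ≤ 2 / c by positivity)
    calc ∑ j ∈ Finset.range n, (1 / 4 : ℝ) ^ (j + J + 1) * (ℓ j) ^ (-α)
        = (c / 2 * ∑ j ∈ Finset.range n, (1 / 4 : ℝ) ^ (j + J + 1) * (ℓ j) ^ (-α)) * (2 / c) := by
          field_simp
      _ ≤ _ := h3

end Pool.Agent.TH245.Peak
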