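import Pool.Agent.TH245.Peak.Par
import Pool.Agent.TH245.Peak.Hol
import Pool.Agent.TH245.Peak.NotZero

set_option autoImplicit false

open Filter Topology Set

namespace Pool.Agent.TH245.Peak.Con

/-- The point of the upper half circle at distance `x` from `1`. -/
noncomputable def zz (x : ℝ) : ℂ := ⟨1 - x ^ 2 / 2, x * √(1 - x ^ 2 / 4)⟩

lemma zz_norm {x : ℝ} (hx : x ^ 2 ≤ 4) : ‖zz x‖ = 1 := by
  have h1 : √(1 - x ^ 2 / 4) ^ 2 = 1 - x ^ 2 / 4 := Real.sq_sqrt (by linarith)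
  have h2 : ‖zz x‖ ^ 2 = 1 := by
    rw [← Complex.normSq_eq_norm_sq, Complex.normSq_apply]
    simp only [zz]
    nlinarith
  have h3 := norm_nonneg (zz x)
  nlinarith

lemma zz_dist {x : ℝ} (hx0 : 0 ≤ x) (hx : x ^ 2 ≤ 4) : ‖1 - zz x‖ = x := by
  have h1 : √(1 - x ^ 2 / 4) ^ 2 = 1 - x ^ 2 / 4 := Real.sq_sqrt (by linarith)
  have h2 : ‖1 - zz x‖ ^ 2 = x ^ 2 := by
    rw [← Complex.normSq_eq_norm_sq, Complex.normSq_apply]
    simp only [zz, Complex.sub_re, Complex.one_re, Complex.sub_im, Complex.one_im]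
    nlinarith
  exact (sq_eq_sq₀ (norm_nonneg _) hx0).1 h2

/-- `zz` is Lipschitz near `0`. -/
lemma zz_lip {x y : ℝ} (hx0 : 0 ≤ x) (hy0 : 0 ≤ y) (hx : x ≤ 1) (hy : y ≤ 1) :
    ‖zz x - zz y‖ ≤ 3 * |x - y| := by
  have h1 : ‖zz x - zz y‖ ≤ |(zz x - zz y).re| + |(zz x - zz y).im| := Complex.norm_le_abs_re_add_abs_im _
  have h2 : |(zz x - zz y).re| ≤ |x - y| := by
    simp only [zz, Complex.sub_re]
    have e : 1 - x ^ 2 / 2 - (1 - y ^ 2 / 2) = -((x - y) * ((x + y) / 2)) := by ring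
    rw [e, abs_neg, abs_mul, abs_of_nonneg (show 0 ≤ (x + y) / 2 by linarith)]
    have := abs_nonneg (x - y)
    nlinarith
  have h3 : |(zz x - zz y).im| ≤ 2 * |x - y| := by
    simp only [zz, Complex.sub_im]
    set a := √(1 - x ^ 2 / 4) with ha
    set b := √(1 - y ^ 2 / 4) with hb
    have ha2 : a ^ 2 = 1 - x ^ 2 / 4 := Real.sq_sqrt (by nlinarith)
    have hb2 : b ^ 2 = 1 - y ^ 2 / 4 := Real.sq_sqrt (by nlinarith)
    have ha0 : 0 ≤ a := Real.sqrt_nonneg _
    have hb0 : 0 ≤ b := Real.sqrt_nonneg _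
    have ha1 : a ≤ 1 := by nlinarith
    have hah : 1 / 2 ≤ a := by nlinarith
    have hbh : 1 / 2 ≤ b := by nlinarith
    have hb1 : b ≤ 1 := by nlinarith
    have h4 : |a - b| ≤ |x - y| := by
      have h5 : (a - b) * (a + b) = -((x - y) * (x + y) / 4) := by nlinarith
      have h6 : |a - b| * (a + b) = |x - y| * (x + y) / 4 := by
        have := congrArg abs h5
        rw [abs_mul, abs_neg, abs_div, abs_mul, abs_of_nonneg (show 0 ≤ a + b by linarith),
          abs_of_nonneg (show 0 ≤ x + y by linarith), abs_of_pos (show (0 : ℝ) < 4 by norm_num)] at this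
        exact this
      have h7 := abs_nonneg (a - b)
      have h8 := abs_nonneg (x - y)
      nlinarith
    have e : x * a - y * b = (x - y) * a + y * (a - b) := by ring
    rw [e]
    calc |(x - y) * a + y * (a - b)| ≤ |(x - y) * a| + |y * (a - b)| := abs_add_le _ _
      _ = |x - y| * a + y * |a - b| := by rw [abs_mul, abs_mul, abs_of_nonneg ha0, abs_of_nonneg hy0]
      _ ≤ |x - y| * 1 + 1 * |x - y| := by gcongr
      _ = _ := by ring
  linarith

lemma exp_eq_zz {θ : ℝ} (h0 : 0 ≤ θ) (h1 : θ ≤ 1) :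
    Complex.exp (θ * Complex.I) = zz (2 * Real.sin (θ / 2)) := by
  have hc : 0 ≤ Real.cos (θ / 2) := by
    apply Real.cos_nonneg_of_neg_pi_div_two_le_of_le
    · linarith [Real.pi_pos]
    · linarith [Real.pi_gt_three]
  have h2 : Real.cos θ = 1 - 2 * Real.sin (θ / 2) ^ 2 := by
    have := Real.cos_two_mul (θ / 2)
    rw [mul_div_cancel₀ θ (by norm_num)] at this
    have h3 := Real.sin_sq_add_cos_sq (θ / 2)
    linarith
  have h4 : Real.sin θ = 2 * Real.sin (θ / 2) * Real.cos (θ / 2) := by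
    have := Real.sin_two_mul (θ / 2)
    rwa [mul_div_cancel₀ θ (by norm_num)] at this
  have h5 : √(1 - (2 * Real.sin (θ / 2)) ^ 2 / 4) = Real.cos (θ / 2) := by
    have e : 1 - (2 * Real.sin (θ / 2)) ^ 2 / 4 = Real.cos (θ / 2) ^ 2 := by
      have h3 := Real.sin_sq_add_cos_sq (θ / 2)
      linarith
    rw [e, Real.sqrt_sq hc]
  apply Complex.ext
  · rw [Complex.exp_ofReal_mul_I_re]
    simp only [zz]
    rw [h2]; ring
  · rw [Complex.exp_ofReal_mul_I_im]
    simp only [zz]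
    rw [h5, h4]

section

variable (β : ℝ) (J : ℕ)

abbrev Ix := Σ j : ℕ, Fin (N β J j)

noncomputable def pt (n : Ix β J) : ℝ := r J n.1 * (1 + (n.2 : ℝ) / (N β J n.1 : ℝ))

variable {β J}

lemma N_pos (G : Good β J) (j : ℕ) : 0 < N β J j := by
  unfold N
  rw [Nat.floor_pos]
  exact G.P1 j

lemma N_le (j : ℕ) : (N β J j : ℝ) ≤ X β J j := Nat.floor_le (X0 β J j).le

lemma N_ge (G : Good β J) (j : ℕ) : X β J j / 2 ≤ (N β J j : ℝ) := by
  have h1 : X β J j < (N β J j : ℝ) + 1 := Nat.lt_floor_add_one _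
  have h2 : (1 : ℝ) ≤ N β J j := by exact_mod_cast N_pos G j
  linarith

lemma N_mul (hβ : 1 < β) (j : ℕ) : (N β J j : ℝ) * r J j ^ (β - 1) ≤ p J j ^ (-β) := by
  have h1 := N_le (β := β) (J := J) j
  have h2 := r0 J j
  have h3 := p0 J j
  calc (N β J j : ℝ) * r J j ^ (β - 1) ≤ X β J j * r J j ^ (β - 1) := by gcongr
    _ = p J j ^ (-β) := by
      unfold X
      rw [Real.rpow_neg h3.le, div_mul_eq_mul_div, ← Real.rpow_add h2]
      norm_num

lemma pt_ge (n : Ix β J) : r J n.1 ≤ pt β J n := by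
  unfold pt
  have := r0 J n.1
  have h : 0 ≤ (n.2 : ℝ) / (N β J n.1 : ℝ) := by positivity
  nlinarith

lemma pt_le (n : Ix β J) : pt β J n ≤ 2 * r J n.1 := by
  unfold pt
  have h0 := r0 J n.1
  have hN : 0 < N β J n.1 := Nat.pos_of_ne_zero (fun h => by
    have := n.2.2
    omega)
  have h : (n.2 : ℝ) / (N β J n.1 : ℝ) ≤ 1 := by
    rw [div_le_one (by exact_mod_cast hN)]
    exact_mod_cast n.2.2.le
  nlinarith

lemma pt_pos (n : Ix β J) : 0 < pt β J n := (r0 J n.1).trans_le (pt_ge n)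

lemma pt_le_one (n : Ix β J) : pt β J n ≤ 1 := by
  have := pt_le n
  have := r_le J n.1
  linarith

lemma mass_le (hβ : 1 < β) (n : Ix β J) :
    pt β J n ^ (β - 1) ≤ 2 ^ (β - 1) * r J n.1 ^ (β - 1) := by
  rw [← Real.mul_rpow (by norm_num) (r0 J n.1).le]
  exact Real.rpow_le_rpow (pt_pos n).le (pt_le n) (by linarith)

lemma sum_mass (hβ : 1 < β) (G : Good β J) (F : Finset (Ix β J)) :
    ∑ n ∈ F, pt β J n ^ (β - 1) ≤ 1 / 32 := by
  classical
  have hsub : F ⊆ (F.image Sigma.fst).sigma (fun _ => Finset.univ) := by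
    intro n hn
    rw [Finset.mem_sigma]
    exact ⟨Finset.mem_image_of_mem _ hn, Finset.mem_univ _⟩
  have h0 : ∀ n : Ix β J, 0 ≤ pt β J n ^ (β - 1) := fun n => (Real.rpow_pos_of_pos (pt_pos n) _).le
  calc ∑ n ∈ F, pt β J n ^ (β - 1)
      ≤ ∑ n ∈ (F.image Sigma.fst).sigma (fun _ => Finset.univ), pt β J n ^ (β - 1) :=
        Finset.sum_le_sum_of_subset_of_nonneg hsub (fun n _ _ => h0 n)
    _ = ∑ j ∈ F.image Sigma.fst, ∑ i : Fin (N β J j), pt β J ⟨j, i⟩ ^ (β - 1) :=
        Finset.sum_sigma _ _ _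
    _ ≤ ∑ j ∈ F.image Sigma.fst, 2 ^ (β - 1) * p J j ^ (-β) := by
        apply Finset.sum_le_sum
        intro j _
        calc ∑ i : Fin (N β J j), pt β J ⟨j, i⟩ ^ (β - 1)
            ≤ ∑ _i : Fin (N β J j), 2 ^ (β - 1) * r J j ^ (β - 1) :=
              Finset.sum_le_sum fun i _ => mass_le hβ ⟨j, i⟩
          _ = 2 ^ (β - 1) * ((N β J j : ℝ) * r J j ^ (β - 1)) := by
              rw [Finset.sum_const, Finset.card_univ, Fintype.card_fin, nsmul_eq_mul]; ring
          _ ≤ 2 ^ (β - 1) * p J j ^ (-β) := by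
              have := N_mul (β := β) (J := J) hβ j
              gcongr
    _ ≤ ∑' j, 2 ^ (β - 1) * p J j ^ (-β) :=
        G.P3.1.sum_le_tsum _ (fun j _ => by have := p0 J j; positivity)
    _ ≤ 1 / 32 := G.P3.2

lemma summable_mass (hβ : 1 < β) (G : Good β J) :
    Summable (fun n : Ix β J => pt β J n ^ (β - 1)) :=
  summable_of_sum_le (fun n => (Real.rpow_pos_of_pos (pt_pos n) _).le) (sum_mass hβ G)

/-- near blocks -/
def Near (J j : ℕ) (x : ℝ) : Prop := 4 / 5 * r J j ≤ x ∧ x ≤ 8 / 3 * r J j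

lemma near_unique {i j : ℕ} {x : ℝ} (hi : Near J i x) (hj : Near J j x) : i = j := by
  have key : ∀ a b : ℕ, a < b → Near J a x → Near J b x → False := by
    intro a b hab ha hb
    have h1 : r J b ≤ 1 / 4 * r J a := by
      unfold r
      have : (1 / 4 : ℝ) ^ (b + J + 1) ≤ (1 / 4 : ℝ) ^ (a + J + 1 + 1) := by
        apply pow_le_pow_of_le_one (by norm_num) (by norm_num) (by omega)
      calc (1 / 4 : ℝ) ^ (b + J + 1) ≤ (1 / 4 : ℝ) ^ (a + J + 1 + 1) := this
        _ = _ := by ring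
    have h2 := ha.1
    have h3 := hb.2
    have h4 := r0 J a
    linarith
  rcases lt_trichotomy i j with h | h | h
  · exact (key i j h hi hj).elim
  · exact h
  · exact (key j i h hj hi).elim

lemma far_of_not_near {n : Ix β J} {x : ℝ} (h : ¬ Near J n.1 x) : x / 4 ≤ |x - pt β J n| := by
  by_contra hcon
  push Not at hcon
  rw [abs_lt] at hcon
  have h1 := pt_ge n
  have h2 := pt_le n
  apply h
  constructor
  · linarith [hcon.1]
  · linarith [hcon.2]

lemma k_const (hβ : 1 < β) {x : ℝ} (hx0 : 0 < x) (hx2 : x ≤ 2) :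
    2 * ((3 / 8) ^ β / 4) * x ^ β ≤ x / 4 := by
  have h1 : x ^ β = x ^ (β - 1) * x := by
    rw [← Real.rpow_add_one hx0.ne']; congr 1; ring
  have h2 : x ^ (β - 1) ≤ 2 ^ (β - 1) := Real.rpow_le_rpow hx0.le hx2 (by linarith)
  have h3 : (3 / 8 : ℝ) ^ β * 2 ^ (β - 1) ≤ 1 / 2 := by
    have h4 : (2 : ℝ) ^ (β - 1) = 2 ^ β / 2 := by
      rw [Real.rpow_sub (by norm_num), Real.rpow_one]
    rw [h4, mul_div_assoc', ← Real.mul_rpow (by norm_num) (by norm_num)]
    have h5 : (3 / 8 * 2 : ℝ) ^ β ≤ 1 := Real.rpow_le_one (by norm_num) (by norm_num) (by linarith)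
    linarith
  calc 2 * ((3 / 8) ^ β / 4) * x ^ β = (3 / 8) ^ β * x ^ (β - 1) / 2 * x := by rw [h1]; ring
    _ ≤ (3 / 8) ^ β * 2 ^ (β - 1) / 2 * x := by gcongr
    _ ≤ 1 / 2 / 2 * x := by gcongr
    _ = x / 4 := by ring

/-- in-block estimates -/
lemma block (hβ : 1 < β) (G : Good β J) {j : ℕ} {x : ℝ} (hx0 : 0 < x) (hn : Near J j x) :
    ∃ c : Fin (N β J j), (∀ i, i ≠ c → 2 * ((3 / 8) ^ β / 4) * x ^ β ≤ |x - pt β J ⟨j, i⟩|) ∧
      ∑ i ∈ Finset.univ.erase c, pt β J ⟨j, i⟩ ^ (β - 1) / |x - pt β J ⟨j, i⟩| ≤ 1 / (8 * x) := by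
  classical
  have hN := N_pos G j
  have hNR : (0 : ℝ) < N β J j := by exact_mod_cast hN
  haveI : Nonempty (Fin (N β J j)) := ⟨⟨0, hN⟩⟩
  have hr := r0 J j
  have hp := p0 J j
  set y : ℝ := (x / r J j - 1) * N β J j with hy
  have hdist : ∀ i : Fin (N β J j), |x - pt β J ⟨j, i⟩| = r J j / N β J j * |y - i| := by
    intro i
    have e : x - pt β J ⟨j, i⟩ = r J j / N β J j * (y - i) := by
      simp only [pt, hy]
      field_simp
      ring
    rw [e, abs_mul, abs_of_pos (by positivity)]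
  obtain ⟨c, -, hc⟩ := Finset.exists_min_image Finset.univ
    (fun i : Fin (N β J j) => |y - (i : ℝ)|) Finset.univ_nonempty
  have hhalf : ∀ i : Fin (N β J j), |(i : ℝ) - (c : ℝ)| / 2 ≤ |y - i| := by
    intro i
    have h1 := hc i (Finset.mem_univ i)
    have h2 : |(i : ℝ) - (c : ℝ)| ≤ |y - i| + |y - c| := by
      have e : (i : ℝ) - (c : ℝ) = (y - c) - (y - i) := by ring
      rw [e]
      calc |(y - c) - (y - i)| ≤ |y - c| + |y - i| := abs_sub _ _
        _ = _ := by ring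
    linarith
  have hone : ∀ i : Fin (N β J j), i ≠ c → 1 ≤ |(i : ℝ) - (c : ℝ)| := by
    intro i hi
    have h1 : (i : ℤ) - (c : ℤ) ≠ 0 := by
      intro h
      apply hi
      apply Fin.ext
      omega
    have h2 : (1 : ℤ) ≤ |(i : ℤ) - (c : ℤ)| := Int.one_le_abs h1
    have h3 : ((1 : ℤ) : ℝ) ≤ ((|(i : ℤ) - (c : ℤ)| : ℤ) : ℝ) := by exact_mod_cast h2
    push_cast at h3
    exact h3
  refine ⟨c, ?_, ?_⟩
  · intro i hi
    rw [hdist]
    have h1 := hhalf i
    have h2 := hone i hi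
    have h3 := N_le (β := β) (J := J) j
    have h4 : r J j / X β J j = r J j ^ β * p J j ^ β := by
      unfold X
      rw [Real.rpow_sub hr, Real.rpow_one]
      have : 0 < r J j ^ β := by positivity
      field_simp
    have h5 : (1 : ℝ) ≤ p J j ^ β := Real.one_le_rpow (p1 J j) (by linarith)
    have h6 : 3 / 8 * x ≤ r J j := by linarith [hn.2]
    calc 2 * ((3 / 8) ^ β / 4) * x ^ β = (3 / 8 * x) ^ β / 2 := by
          rw [Real.mul_rpow (by norm_num) hx0.le]; ring
      _ ≤ r J j ^ β / 2 := by gcongr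
      _ ≤ r J j ^ β * p J j ^ β * (1 / 2) := by
          have : 0 < r J j ^ β := by positivity
          nlinarith
      _ = r J j / X β J j * (1 / 2) := by rw [h4]
      _ ≤ r J j / N β J j * |y - i| := by
          gcongr
          linarith
  · have h1 : ∀ i ∈ Finset.univ.erase c, pt β J ⟨j, i⟩ ^ (β - 1) / |x - pt β J ⟨j, i⟩|
        ≤ (2 ^ β * (N β J j * r J j ^ (β - 1)) / r J j) * (1 / |(i : ℝ) - (c : ℝ)|) := by
      intro i hi
      have hi' := Finset.ne_of_mem_erase hi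
      rw [hdist]
      have h2 := hhalf i
      have h3 := hone i hi'
      have h4 := mass_le hβ (⟨j, i⟩ : Ix β J)
      simp only at h4
      have h5 : 0 < |(i : ℝ) - (c : ℝ)| := by linarith
      calc pt β J ⟨j, i⟩ ^ (β - 1) / (r J j / N β J j * |y - i|)
          ≤ (2 ^ (β - 1) * r J j ^ (β - 1)) / (r J j / N β J j * (|(i : ℝ) - (c : ℝ)| / 2)) := by
            gcongr
        _ = _ := by
            have : (2 : ℝ) ^ β = 2 ^ (β - 1) * 2 := by
              rw [← Real.rpow_add_one (by norm_num)]; congr 1; ring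
            rw [this]
            field_simp
    refine (Finset.sum_le_sum h1).trans ?_
    rw [← Finset.mul_sum]
    have h2 := sum_inv_dist (N β J j) c
    have h3 := N_mul (β := β) (J := J) hβ j
    have h4 := G.P4 j
    have h5 : Real.log (N β J j) ≤ Real.log (X β J j) := Real.log_le_log hNR (N_le j)
    have h6 : 0 ≤ Real.log (N β J j) := Real.log_nonneg (by exact_mod_cast hN)
    have h7 : 1 / r J j ≤ 8 / 3 / x := by
      rw [div_le_div_iff₀ hr hx0]
      linarith [hn.2]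
    calc (2 ^ β * (N β J j * r J j ^ (β - 1)) / r J j) *
          ∑ i ∈ Finset.univ.erase c, (1 / |(i : ℝ) - (c : ℝ)|)
        ≤ (2 ^ β * (N β J j * r J j ^ (β - 1)) / r J j) * (2 * (1 + Real.log (N β J j))) := by
          gcongr
      _ = (2 ^ β * (N β J j * r J j ^ (β - 1)) * (1 / r J j)) * (2 * (1 + Real.log (N β J j))) := by
          ring
      _ ≤ (2 ^ β * (p J j ^ (-β)) * (8 / 3 / x)) * (2 * (1 + Real.log (X β J j))) := by
          gcongr
      _ = (8 / 3 * 2 ^ (β + 1) * p J j ^ (-β) * (1 + Real.log (X β J j))) / x := by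
          have : (2 : ℝ) ^ (β + 1) = 2 ^ β * 2 := Real.rpow_add_one (by norm_num) _
          rw [this]
          ring
      _ ≤ 1 / 8 / x := by gcongr
      _ = 1 / (8 * x) := by field_simp

/-- The key property. -/
lemma key (hβ : 1 < β) (G : Good β J) (x : ℝ) (hx0 : 0 < x) (hx2 : x ≤ 2) :
    ∃ k : Ix β J, (∀ n, n ≠ k → 2 * ((3 / 8) ^ β / 4) * x ^ β ≤ |x - pt β J n|) ∧
      ∀ F : Finset (Ix β J), k ∉ F →
        ∑ n ∈ F, pt β J n ^ (β - 1) / |x - pt β J n| ≤ 1 / (4 * x) := by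
  classical
  have hfar : ∀ F : Finset (Ix β J), (∀ n ∈ F, ¬ Near J n.1 x) →
      ∑ n ∈ F, pt β J n ^ (β - 1) / |x - pt β J n| ≤ 1 / (8 * x) := by
    intro F hF
    have h1 : ∀ n ∈ F, pt β J n ^ (β - 1) / |x - pt β J n| ≤ 4 / x * pt β J n ^ (β - 1) := by
      intro n hn
      have h2 := far_of_not_near (hF n hn)
      have h3 : 0 < pt β J n ^ (β - 1) := Real.rpow_pos_of_pos (pt_pos n) _
      calc pt β J n ^ (β - 1) / |x - pt β J n| ≤ pt β J n ^ (β - 1) / (x / 4) := by gcongr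
        _ = _ := by field_simp
    refine (Finset.sum_le_sum h1).trans ?_
    rw [← Finset.mul_sum]
    calc 4 / x * ∑ n ∈ F, pt β J n ^ (β - 1) ≤ 4 / x * (1 / 32) := by
          have := sum_mass hβ G F
          gcongr
      _ = _ := by field_simp; norm_num
  by_cases hex : ∃ j, Near J j x
  · obtain ⟨j, hj⟩ := hex
    obtain ⟨c, hc1, hc2⟩ := block hβ G hx0 hj
    refine ⟨⟨j, c⟩, ?_, ?_⟩
    · rintro ⟨j', i⟩ hn
      by_cases hjj : j' = j
      · subst hjj
        exact hc1 i (fun h => hn (by rw [h]))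
      · have h1 : ¬ Near J j' x := fun h => hjj (near_unique h hj)
        exact (k_const hβ hx0 hx2).trans (far_of_not_near (n := ⟨j', i⟩) h1)
    · intro F hF
      rw [← Finset.sum_filter_add_sum_filter_not F (fun n => n.1 = j)]
      have h1 : ∑ n ∈ F.filter (fun n => ¬ n.1 = j), pt β J n ^ (β - 1) / |x - pt β J n|
          ≤ 1 / (8 * x) := by
        apply hfar
        intro n hn h
        exact (Finset.mem_filter.1 hn).2 (near_unique h hj)
      have h2 : ∑ n ∈ F.filter (fun n => n.1 = j), pt β J n ^ (β - 1) / |x - pt β J n|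
          ≤ 1 / (8 * x) := by
        refine le_trans ?_ hc2
        have h3 : F.filter (fun n => n.1 = j) ⊆
            (Finset.univ.erase c).image (fun i => (⟨j, i⟩ : Ix β J)) := by
          rintro ⟨j', i⟩ hn
          rw [Finset.mem_filter] at hn
          obtain ⟨hn1, hn2⟩ := hn
          simp only at hn2
          subst hn2
          rw [Finset.mem_image]
          refine ⟨i, ?_, rfl⟩
          rw [Finset.mem_erase]
          exact ⟨fun h => hF (h ▸ hn1), Finset.mem_univ _⟩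
        refine (Finset.sum_le_sum_of_subset_of_nonneg h3 (fun n _ _ => ?_)).trans ?_
        · have h3 : 0 < pt β J n ^ (β - 1) := Real.rpow_pos_of_pos (pt_pos n) _
          positivity
        · rw [Finset.sum_image]
          intro a _ b _ hab
          simpa using hab
      calc _ ≤ 1 / (8 * x) + 1 / (8 * x) := add_le_add h2 h1
        _ = _ := by field_simp; norm_num
  · push Not at hex
    refine ⟨⟨0, ⟨0, N_pos G 0⟩⟩, ?_, ?_⟩
    · intro n _
      exact (k_const hβ hx0 hx2).trans (far_of_not_near (hex n.1))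
    · intro F _
      refine (hfar F (fun n _ => hex n.1)).trans ?_
      gcongr
      norm_num

/-- The data for the peak set. -/
noncomputable def dat (hβ : 1 < β) (G : Good β J) : Dat β ((3 / 8) ^ β / 4) (Ix β J) where
  ρ := pt β J
  z := fun n => zz (pt β J n)
  hβ := hβ
  hκ := by positivity
  ρ0 := pt_pos
  z1 := fun n => zz_norm (by have := pt_pos n; have := pt_le_one n; nlinarith)
  zρ := fun n => zz_dist (pt_pos n).le (by have := pt_pos n; have := pt_le_one n; nlinarith)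
  small := fun n => (Real.rpow_le_rpow (pt_pos n).le (pt_le n) (by linarith)).trans (G.P2 n.1)
  summ := summable_mass hβ G
  key := key hβ G

lemma kap (hβ : 1 < β) : ((3 / 8 : ℝ) ^ β / 4) * 2 ^ (β - 1) ≤ 1 / 4 := by
  have h4 : (2 : ℝ) ^ (β - 1) = 2 ^ β / 2 := by
    rw [Real.rpow_sub (by norm_num), Real.rpow_one]
  have h5 : (3 / 8 * 2 : ℝ) ^ β ≤ 1 := Real.rpow_le_one (by norm_num) (by norm_num) (by linarith)
  rw [Real.mul_rpow (by norm_num) (by norm_num)] at h5
  rw [h4]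
  have : 0 ≤ (3 / 8 : ℝ) ^ β := by positivity
  nlinarith

end

end Pool.Agent.TH245.Peak.Con
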