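import Mathlib

set_option autoImplicit false

open Metric Filter Topology Set

namespace Pool.Agent.TH245.Peak

/-- The analytic Lipschitz class `A_α`: `f` is analytic in the open unit disc, continuous on the
closed disc, and `|f(ζ₁) - f(ζ₂)| ≤ C |ζ₁ - ζ₂|^α` on the unit circle. -/
def InA (α : ℝ) (f : ℂ → ℂ) : Prop :=
  DifferentiableOn ℂ f (ball 0 1) ∧ ContinuousOn f (closedBall 0 1) ∧
    ∃ C : ℝ, ∀ ζ₁ ∈ sphere (0 : ℂ) 1, ∀ ζ₂ ∈ sphere (0 : ℂ) 1,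
      ‖f ζ₁ - f ζ₂‖ ≤ C * ‖ζ₁ - ζ₂‖ ^ α

/-- The family `𝒫_α` of peak sets for `A_α`: the closed subsets `E` of the unit circle for which
some `f ∈ A_α` satisfies `f = 1` on `E` and `|f| < 1` on the rest of the circle. -/
def PeakSets (α : ℝ) : Set (Set ℂ) :=
  {E | IsClosed E ∧ E ⊆ sphere (0 : ℂ) 1 ∧
    ∃ f : ℂ → ℂ, InA α f ∧ (∀ ζ ∈ E, f ζ = 1) ∧ ∀ ζ ∈ sphere (0 : ℂ) 1, ζ ∉ E → ‖f ζ‖ < 1}

/-- The Gevrey class `G_α`: `f` is analytic in the open unit disc and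
`|f^(n)(z)| ≤ C^(n+1) (n!)^(1+1/α)` for all `n ≥ 0` and all `z` in the disc. -/
def InG (α : ℝ) (f : ℂ → ℂ) : Prop :=
  DifferentiableOn ℂ f (ball 0 1) ∧
    ∃ C : ℝ, ∀ n : ℕ, ∀ z ∈ ball (0 : ℂ) 1,
      ‖iteratedDeriv n f z‖ ≤ C ^ (n + 1) * (n.factorial : ℝ) ^ (1 + 1 / α)

/-- The family `Z(G_α)` of zero sets for `G_α`: the closed subsets `E` of the unit circle for which
some `f ∈ G_α` which does not vanish identically in the disc has `f^(n) = 0` on `E` for every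
`n ≥ 0` (the value of `f^(n)` at a point of the circle is its limit from the disc). -/
def ZeroSets (α : ℝ) : Set (Set ℂ) :=
  {E | IsClosed E ∧ E ⊆ sphere (0 : ℂ) 1 ∧
    ∃ f : ℂ → ℂ, InG α f ∧ (∃ z ∈ ball (0 : ℂ) 1, f z ≠ 0) ∧
      ∀ n : ℕ, ∀ ζ ∈ E, Tendsto (iteratedDeriv n f) (𝓝[ball 0 1] ζ) (𝓝 0)}

end Pool.Agent.TH245.Peak
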