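import Pool.Agent.TH245.Peak.Blocks

set_option autoImplicit false

open Filter Topology Set Metric

namespace Pool.Agent.TH245.Peak.Con

lemma norm_exp_sub_one {θ : ℝ} (h : 0 ≤ θ) : ‖Complex.exp (θ * Complex.I) - 1‖ ≤ θ := by
  rw [mul_comm, Complex.norm_exp_I_mul_ofReal_sub_one, Real.norm_eq_abs, abs_mul, abs_two]
  have h1 := Real.abs_sin_le_abs (x := θ / 2)
  rw [abs_of_nonneg (show 0 ≤ θ / 2 by linarith)] at h1
  linarith

variable {β : ℝ} {J : ℕ}

/-- the points are `3 r_j / N_j`-dense in the `j`-th block -/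
lemma cover (hβ : 1 < β) (G : Good β J) (j : ℕ) {θ : ℝ}
    (hθ : θ ∈ Icc (3 / 2 * (1 / 4 : ℝ) ^ (j + J + 1)) (2 * (1 / 4 : ℝ) ^ (j + J + 1))) :
    ∃ ζ ∈ (dat hβ G).E, ‖Complex.exp (θ * Complex.I) - ζ‖ ≤ 3 * (r J j / N β J j) := by
  have hN := N_pos G j
  have hNR : (0 : ℝ) < N β J j := by exact_mod_cast hN
  have hr := r0 J j
  have hr4 := r_le J j
  have hθ' : θ ∈ Icc (3 / 2 * r J j) (2 * r J j) := hθ
  obtain ⟨h1, h2⟩ := hθ'
  have hθ0 : 0 < θ := by linarith
  have hθ1 : θ ≤ 1 := by linarith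
  set x : ℝ := 2 * Real.sin (θ / 2) with hx
  have hx1 : x ≤ 2 * r J j := by
    have := Real.sin_le (show 0 ≤ θ / 2 by linarith)
    linarith
  have hx2 : r J j ≤ x := by
    have h6 := Real.sin_gt_sub_cube (show 0 < θ / 2 by linarith)
    have h7 : (θ / 2) ^ 3 ≤ (θ / 2) * (1 / 16) := by
      have : (θ / 2) ^ 2 ≤ 1 / 16 := by nlinarith
      nlinarith
    linarith
  set y : ℝ := (x / r J j - 1) * N β J j with hy
  have hy0 : 0 ≤ y := by
    have : 1 ≤ x / r J j := by rw [le_div_iff₀ hr]; linarith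
    have : 0 ≤ x / r J j - 1 := by linarith
    positivity
  have hyN : y ≤ N β J j := by
    have : x / r J j ≤ 2 := by rw [div_le_iff₀ hr]; linarith
    have : x / r J j - 1 ≤ 1 := by linarith
    nlinarith
  have hex : ∃ i : Fin (N β J j), |y - i| ≤ 1 := by
    by_cases hlt : ⌊y⌋₊ < N β J j
    · refine ⟨⟨⌊y⌋₊, hlt⟩, ?_⟩
      have h3 := Nat.floor_le hy0
      have h4 := Nat.lt_floor_add_one y
      rw [abs_le]
      constructor
      · simp only; linarith
      · simp only; linarith
    · push Not at hlt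
      refine ⟨⟨N β J j - 1, by omega⟩, ?_⟩
      have h3 := Nat.floor_le hy0
      have h4 : ((N β J j : ℕ) : ℝ) ≤ ⌊y⌋₊ := by exact_mod_cast hlt
      have h5 : ((N β J j - 1 : ℕ) : ℝ) = (N β J j : ℝ) - 1 := by
        rw [Nat.cast_sub (by omega)]; simp
      rw [abs_le]
      simp only
      rw [h5]
      constructor <;> linarith
  obtain ⟨i, hi⟩ := hex
  refine ⟨zz (pt β J ⟨j, i⟩), Or.inr ⟨⟨j, i⟩, rfl⟩, ?_⟩
  rw [exp_eq_zz hθ0.le hθ1, ← hx]
  have hp1 := pt_le_one (β := β) (J := J) ⟨j, i⟩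
  have hp0 := pt_pos (β := β) (J := J) ⟨j, i⟩
  refine (zz_lip (by linarith) hp0.le (by linarith) hp1).trans ?_
  have e : x - pt β J ⟨j, i⟩ = r J j / N β J j * (y - i) := by
    simp only [pt, hy]
    field_simp
    ring
  rw [e, abs_mul, abs_of_pos (by positivity)]
  have : r J j / N β J j * |y - i| ≤ r J j / N β J j * 1 := by gcongr
  linarith

theorem E_notMem (hβ : 1 < β) (G : Good β J) : (dat hβ G).E ∉ ZeroSets (1 / β) := by
  have hβ0 : 0 < β := by linarith
  apply not_zeroSet (by positivity) J (fun j => 3 * (r J j / N β J j))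
  · intro j
    have hNR : (0 : ℝ) < N β J j := by exact_mod_cast N_pos G j
    have := r0 J j
    positivity
  · intro j θ hθ
    exact cover hβ G j hθ
  · intro hs
    -- comparison with the harmonic series
    have h1 : ∀ j, 6 ^ (-(1 / β)) * (p J j)⁻¹ ≤
        (1 / 4 : ℝ) ^ (j + J + 1) * (3 * (r J j / N β J j)) ^ (-(1 / β)) := by
      intro j
      have hN := N_pos G j
      have hNR : (0 : ℝ) < N β J j := by exact_mod_cast hN
      have hr := r0 J j
      have hp := p0 J j
      have hX := X0 β J j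
      have h2 := N_ge G j
      have h3 : 3 * (r J j / N β J j) ≤ 6 * (r J j ^ β * p J j ^ β) := by
        have e : r J j / (X β J j / 2) = 2 * (r J j ^ β * p J j ^ β) := by
          unfold X
          rw [Real.rpow_sub hr, Real.rpow_one]
          have : 0 < r J j ^ β := by positivity
          field_simp
        have h4 : r J j / N β J j ≤ r J j / (X β J j / 2) := by gcongr
        rw [e] at h4
        linarith
      have h5 : (6 * (r J j ^ β * p J j ^ β)) ^ (-(1 / β)) ≤ (3 * (r J j / N β J j)) ^ (-(1 / β)) := by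
        apply Real.rpow_le_rpow_of_nonpos (by positivity) h3
        have : 0 < 1 / β := by positivity
        linarith
      have h6 : (6 * (r J j ^ β * p J j ^ β)) ^ (-(1 / β))
          = 6 ^ (-(1 / β)) * ((r J j)⁻¹ * (p J j)⁻¹) := by
        rw [Real.mul_rpow (by norm_num) (by positivity),
          Real.mul_rpow (by positivity) (by positivity), ← Real.rpow_mul hr.le,
          ← Real.rpow_mul hp.le]
        have : β * -(1 / β) = -1 := by field_simp
        rw [this, Real.rpow_neg_one, Real.rpow_neg_one]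
      rw [h6] at h5
      have h7 : (1 / 4 : ℝ) ^ (j + J + 1) = r J j := rfl
      rw [h7]
      calc 6 ^ (-(1 / β)) * (p J j)⁻¹ = r J j * (6 ^ (-(1 / β)) * ((r J j)⁻¹ * (p J j)⁻¹)) := by
            field_simp
        _ ≤ _ := by gcongr
    have h2 : Summable (fun j => 6 ^ (-(1 / β)) * (p J j)⁻¹) :=
      Summable.of_nonneg_of_le (fun j => by have := p0 J j; positivity) h1 hs
    have h3 : Summable (fun j => (p J j)⁻¹) := by
      have := h2.mul_left ((6 ^ (-(1 / β)))⁻¹ : ℝ)
      refine this.congr fun j => ?_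
      rw [← mul_assoc, inv_mul_cancel₀ (by positivity), one_mul]
    have h4 : Summable (fun j : ℕ => ((j + (J + 1) : ℕ) : ℝ)⁻¹) := h3
    exact Real.not_summable_natCast_inv
      ((summable_nat_add_iff (f := fun n : ℕ => (n : ℝ)⁻¹) (J + 1)).1 h4)

theorem main_lt {α : ℝ} (h0 : 0 < α) (h1 : α < 1) :
    ∃ E ∈ PeakSets α, E.Countable ∧ E ∉ ZeroSets α := by
  have hβ : 1 < 1 / α := by rw [lt_div_iff₀ h0]; linarith
  obtain ⟨J, G⟩ := exists_good hβ
  have e : 1 / (1 / α) = α := by field_simp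
  refine ⟨(dat hβ G).E, ?_, (dat hβ G).E_countable, ?_⟩
  · have := (dat hβ G).peak (kap hβ)
    rwa [e] at this
  · have := E_notMem hβ G
    rwa [e] at this

theorem main_one : ∃ E ∈ PeakSets 1, E.Countable ∧ E ∉ ZeroSets 1 := by
  refine ⟨{1}, ?_, countable_singleton _, ?_⟩
  · refine ⟨isClosed_singleton, by simp, fun ζ => (1 + ζ) / 2, ⟨?_, ?_, 1 / 2, ?_⟩, ?_, ?_⟩
    · fun_prop
    · fun_prop
    · intro ζ _ η _
      have e : (1 + ζ) / 2 - (1 + η) / 2 = (ζ - η) / 2 := by ring
      rw [e, norm_div, Complex.norm_ofNat, Real.rpow_one]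
      linarith
    · intro ζ hζ
      rw [hζ]; norm_num
    · intro ζ hζ hne
      rw [mem_sphere_zero_iff_norm] at hζ
      show ‖(1 + ζ) / 2‖ < 1
      rw [norm_div, Complex.norm_ofNat, div_lt_one (by norm_num)]
      have h1 : ‖ζ‖ ^ 2 = 1 := by rw [hζ]; norm_num
      have h2 : ‖1 + ζ‖ ^ 2 = 2 + 2 * ζ.re := by
        rw [← Complex.normSq_eq_norm_sq, Complex.normSq_apply]
        rw [← Complex.normSq_eq_norm_sq, Complex.normSq_apply] at h1
        simp only [Complex.add_re, Complex.one_re, Complex.add_im, Complex.one_im]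
        nlinarith
      have h3 : ζ.re < 1 := by
        have h4 : ζ.re ≤ 1 := by rw [← hζ]; exact Complex.re_le_norm ζ
        rcases h4.eq_or_lt with h5 | h5
        · exfalso
          apply hne
          rw [← Complex.normSq_eq_norm_sq, Complex.normSq_apply, h5] at h1
          have h6 : ζ.im = 0 := by nlinarith
          exact Complex.ext h5 h6
        · exact h5
      have h4 := norm_nonneg (1 + ζ)
      nlinarith
  · apply not_zeroSet one_pos 0 (fun j => 2 * r 0 j)
    · intro j
      have := r0 0 j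
      positivity
    · intro j θ hθ
      refine ⟨1, rfl, ?_⟩
      have h1 : θ ∈ Icc (3 / 2 * r 0 j) (2 * r 0 j) := hθ
      have h2 := r0 0 j
      exact (norm_exp_sub_one (by linarith [h1.1])).trans h1.2
    · intro hs
      have h1 : (fun j : ℕ => (1 / 4 : ℝ) ^ (j + 0 + 1) * (2 * r 0 j) ^ (-(1 : ℝ)))
          = fun _ => (1 / 2 : ℝ) := by
        funext j
        have h2 := r0 0 j
        have h3 : (1 / 4 : ℝ) ^ (j + 0 + 1) = r 0 j := rfl
        rw [h3, Real.rpow_neg_one]
        field_simp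
      rw [h1] at hs
      have h2 := hs.tendsto_atTop_zero
      have h3 := tendsto_nhds_unique h2 tendsto_const_nhds
      norm_num at h3

/-- For every `0 < α ≤ 1` some countable peak set for `A_α` is not a zero set for `G_α`. -/
theorem main {α : ℝ} (h0 : 0 < α) (h1 : α ≤ 1) :
    ∃ E ∈ PeakSets α, E.Countable ∧ E ∉ ZeroSets α := by
  rcases h1.eq_or_lt with h | h
  · rw [h]; exact main_one
  · exact main_lt h0 h

end Pool.Agent.TH245.Peak.Con
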