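import Pool.Agent.TH245.Peak.Defs

set_option autoImplicit false

open Metric Filter Topology Set MeasureTheory

namespace Pool.Agent.TH245.Peak

/-- Taylor estimate at a boundary point where the derivatives of order `< n` vanish. -/
theorem taylor_bound {ζ : ℂ} (hζ : ζ ∈ sphere (0 : ℂ) 1) {B : ℝ} (hB : 0 ≤ B) (n : ℕ) :
    ∀ F : ℂ → ℂ, DifferentiableOn ℂ F (ball 0 1) →
      (∀ z ∈ ball (0 : ℂ) 1, ‖iteratedDeriv n F z‖ ≤ B) →
      (∀ k < n, Tendsto (iteratedDeriv k F) (𝓝[ball 0 1] ζ) (𝓝 0)) →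
      ∀ z ∈ ball (0 : ℂ) 1, ‖F z‖ ≤ B * ‖z - ζ‖ ^ n / n.factorial := by
  induction n with
  | zero =>
    intro F _ h _ z hz
    simpa using h z hz
  | succ n ih =>
    intro F hF h hk z hz
    have hd : DifferentiableOn ℂ (deriv F) (ball 0 1) := hF.deriv isOpen_ball
    have h1 := ih (deriv F) hd (fun w hw => by
      have := h w hw
      rwa [iteratedDeriv_succ'] at this) (fun k hkn => by
      have := hk (k + 1) (by omega)
      rwa [iteratedDeriv_succ'] at this)
    -- the segment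
    have hγ : ∀ t : ℝ, 0 < t → t ≤ 1 → ζ + t * (z - ζ) ∈ ball (0 : ℂ) 1 := by
      intro t ht ht1
      have e : ζ + t * (z - ζ) = ((1 - t : ℝ) : ℂ) * ζ + (t : ℂ) * z := by push_cast; ring
      rw [e, mem_ball_zero_iff]
      have hz1 : ‖z‖ < 1 := by simpa using hz
      have hζ1 : ‖ζ‖ = 1 := by simpa using hζ
      calc ‖((1 - t : ℝ) : ℂ) * ζ + (t : ℂ) * z‖ ≤ ‖((1 - t : ℝ) : ℂ) * ζ‖ + ‖(t : ℂ) * z‖ :=
            norm_add_le _ _
        _ = (1 - t) + t * ‖z‖ := by
            rw [norm_mul, norm_mul, Complex.norm_real, Complex.norm_real, hζ1,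
              Real.norm_of_nonneg (by linarith), Real.norm_of_nonneg ht.le, mul_one]
        _ < 1 := by nlinarith
    set D : ℝ := ‖z - ζ‖ with hD
    have hD0 : 0 ≤ D := norm_nonneg _
    have key : ∀ ε : ℝ, 0 < ε → ε < 1 →
        ‖F (ζ + (1 : ℝ) * (z - ζ)) - F (ζ + ε * (z - ζ))‖ ≤
          B * D ^ (n + 1) / (n + 1).factorial := by
      intro ε hε hε1
      set u : ℝ → ℂ := fun t => F (ζ + t * (z - ζ)) - F (ζ + ε * (z - ζ)) with hu
      set b : ℝ → ℝ := fun t => B * D ^ (n + 1) / (n + 1).factorial * t ^ (n + 1) with hb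
      have hder : ∀ t ∈ Icc ε 1, HasDerivAt u (deriv F (ζ + t * (z - ζ)) * (z - ζ)) t := by
        intro t ht
        have hm := hγ t (hε.trans_le ht.1) ht.2
        have h2 : HasDerivAt F (deriv F (ζ + t * (z - ζ))) (ζ + t * (z - ζ)) :=
          (hF.differentiableAt (isOpen_ball.mem_nhds hm)).hasDerivAt
        have h3 : HasDerivAt (fun t : ℝ => ζ + (t : ℂ) * (z - ζ)) (z - ζ) t := by
          have h4 : HasDerivAt (fun t : ℝ => (t : ℂ)) 1 t := Complex.ofRealCLM.hasDerivAt
          simpa using (h4.mul_const (z - ζ)).const_add ζ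
        exact (h2.comp t h3).sub_const _
      have hbd : ∀ t, HasDerivAt b (B * D ^ (n + 1) / (n + 1).factorial *
          (((n + 1 : ℕ) : ℝ) * t ^ n)) t := by
        intro t
        have := (hasDerivAt_pow (n + 1) t).const_mul (B * D ^ (n + 1) / (n + 1).factorial)
        simpa using this
      have hfac : ((n + 1).factorial : ℝ) = ((n + 1 : ℕ) : ℝ) * n.factorial := by
        rw [Nat.factorial_succ]; push_cast; ring
      have hres := image_norm_le_of_norm_deriv_right_le_deriv_boundary' (a := ε) (b := 1)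
        (f := u) (f' := fun t => deriv F (ζ + t * (z - ζ)) * (z - ζ)) (B := b)
        (B' := fun t => B * D ^ (n + 1) / (n + 1).factorial * (((n + 1 : ℕ) : ℝ) * t ^ n))
        (fun t ht => (hder t ht).continuousAt.continuousWithinAt)
        (fun t ht => (hder t ⟨ht.1, ht.2.le⟩).hasDerivWithinAt)
        (by simp only [hu, hb]; rw [sub_self, norm_zero]; positivity)
        (fun t _ => (hbd t).continuousAt.continuousWithinAt)
        (fun t ht => (hbd t).hasDerivWithinAt)
        (by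
          intro t ht
          have ht0 : 0 < t := hε.trans_le ht.1
          have hm := hγ t ht0 ht.2.le
          have h5 := h1 _ hm
          have h6 : ‖ζ + t * (z - ζ) - ζ‖ = t * D := by
            rw [add_sub_cancel_left, norm_mul, Complex.norm_real, Real.norm_of_nonneg ht0.le]
          rw [h6] at h5
          rw [norm_mul]
          calc ‖deriv F (ζ + t * (z - ζ))‖ * ‖z - ζ‖ ≤ (B * (t * D) ^ n / n.factorial) * D := by
                gcongr
            _ = B * D ^ (n + 1) / (n + 1).factorial * (((n + 1 : ℕ) : ℝ) * t ^ n) := by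
                rw [hfac]
                have : (n.factorial : ℝ) ≠ 0 := by positivity
                have : ((n + 1 : ℕ) : ℝ) ≠ 0 := by positivity
                field_simp
                ring)
        (x := 1) ⟨hε1.le, le_rfl⟩
      simpa [hu, hb] using hres
    -- let `ε → 0`
    have hlim : Tendsto (fun ε : ℝ => F (ζ + ε * (z - ζ))) (𝓝[>] 0) (𝓝 0) := by
      have h2 := hk 0 (by omega)
      rw [iteratedDeriv_zero] at h2
      refine h2.comp ?_
      rw [tendsto_nhdsWithin_iff]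
      constructor
      · have h3 : Tendsto (fun ε : ℝ => ζ + ε * (z - ζ)) (𝓝 0) (𝓝 (ζ + ((0 : ℝ) : ℂ) * (z - ζ))) := by
          apply Continuous.tendsto
          fun_prop
        simp only [Complex.ofReal_zero, zero_mul, add_zero] at h3
        exact h3.mono_left nhdsWithin_le_nhds
      · filter_upwards [Ioo_mem_nhdsGT (show (0 : ℝ) < 1 by norm_num)] with ε hε
        exact hγ ε hε.1 hε.2.le
    have h7 : Tendsto (fun ε : ℝ => ‖F (ζ + (1 : ℝ) * (z - ζ)) - F (ζ + ε * (z - ζ))‖) (𝓝[>] 0)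
        (𝓝 ‖F (ζ + (1 : ℝ) * (z - ζ)) - 0‖) := (tendsto_const_nhds.sub hlim).norm
    have h8 := le_of_tendsto h7 (by
      filter_upwards [Ioo_mem_nhdsGT (show (0 : ℝ) < 1 by norm_num)] with ε hε
      exact key ε hε.1 hε.2)
    simpa using h8

/-- Functions of the Gevrey class which vanish to infinite order at a boundary point. -/
theorem gevrey_small {α C : ℝ} (hα : 0 < α) (hC : 0 < C) {F : ℂ → ℂ}
    (hF : DifferentiableOn ℂ F (ball 0 1))
    (hG : ∀ n : ℕ, ∀ z ∈ ball (0 : ℂ) 1,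
      ‖iteratedDeriv n F z‖ ≤ C ^ (n + 1) * (n.factorial : ℝ) ^ (1 + 1 / α))
    {ζ : ℂ} (hζ : ζ ∈ sphere (0 : ℂ) 1)
    (h0 : ∀ n : ℕ, Tendsto (iteratedDeriv n F) (𝓝[ball 0 1] ζ) (𝓝 0)) :
    ∀ z ∈ ball (0 : ℂ) 1, ‖F z‖ ≤
      C * Real.exp 1 * Real.exp (-((Real.exp 1 * C) ^ (-α) * ‖z - ζ‖ ^ (-α))) := by
  intro z hz
  have hd : 0 < ‖z - ζ‖ := by
    rw [norm_pos_iff, sub_ne_zero]
    rintro rfl
    simp at hz hζ
    linarith
  set d := ‖z - ζ‖ with hdd
  set X : ℝ := (Real.exp 1 * C * d) ^ (-α) with hX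
  have hX0 : 0 < X := by positivity
  set n : ℕ := ⌊X⌋₊ with hn
  have hn1 : (n : ℝ) ≤ X := Nat.floor_le hX0.le
  have hn2 : X < n + 1 := Nat.lt_floor_add_one X
  have h1 := taylor_bound hζ (B := C ^ (n + 1) * (n.factorial : ℝ) ^ (1 + 1 / α)) (by positivity) n
    F hF (hG n) (fun k _ => h0 k) z hz
  have hf0 : (0 : ℝ) < n.factorial := by positivity
  have h2 : C ^ (n + 1) * (n.factorial : ℝ) ^ (1 + 1 / α) * d ^ n / n.factorial
      = C * ((n.factorial : ℝ) ^ (1 / α) * (C * d) ^ n) := by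
    rw [Real.rpow_add hf0, Real.rpow_one, mul_pow, pow_succ]
    field_simp
  rw [h2] at h1
  have h3 : (n.factorial : ℝ) ^ (1 / α) * (C * d) ^ n ≤ Real.exp (-n) := by
    have h4 : (n.factorial : ℝ) ≤ (n : ℝ) ^ n := by exact_mod_cast Nat.factorial_le_pow n
    have h5 : (n.factorial : ℝ) ^ (1 / α) ≤ ((n : ℝ) ^ (1 / α)) ^ n := by
      calc (n.factorial : ℝ) ^ (1 / α) ≤ ((n : ℝ) ^ n) ^ (1 / α) := by
            apply Real.rpow_le_rpow (by positivity) h4 (by positivity)
        _ = ((n : ℝ) ^ (1 / α)) ^ n := by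
            rw [← Real.rpow_natCast, ← Real.rpow_mul (by positivity), ← Real.rpow_natCast,
              ← Real.rpow_mul (by positivity), mul_comm]
    have h6 : (n : ℝ) ^ (1 / α) * (C * d) ≤ Real.exp (-1) := by
      have h7 : (n : ℝ) ^ (1 / α) ≤ X ^ (1 / α) :=
        Real.rpow_le_rpow (by positivity) hn1 (by positivity)
      have h8 : X ^ (1 / α) = (Real.exp 1 * C * d)⁻¹ := by
        rw [hX, ← Real.rpow_mul (by positivity)]
        rw [show -α * (1 / α) = -1 by field_simp, Real.rpow_neg_one]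
      rw [h8] at h7
      calc (n : ℝ) ^ (1 / α) * (C * d) ≤ (Real.exp 1 * C * d)⁻¹ * (C * d) := by gcongr
        _ = Real.exp (-1) := by
            rw [Real.exp_neg]
            have := Real.exp_pos 1
            field_simp
    calc (n.factorial : ℝ) ^ (1 / α) * (C * d) ^ n ≤ ((n : ℝ) ^ (1 / α)) ^ n * (C * d) ^ n := by
          gcongr
      _ = ((n : ℝ) ^ (1 / α) * (C * d)) ^ n := (mul_pow _ _ _).symm
      _ ≤ (Real.exp (-1)) ^ n := by gcongr
      _ = Real.exp (-n) := by rw [← Real.exp_nat_mul]; congr 1; ring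
  calc ‖F z‖ ≤ C * ((n.factorial : ℝ) ^ (1 / α) * (C * d) ^ n) := h1
    _ ≤ C * Real.exp (-n) := by gcongr
    _ ≤ C * (Real.exp 1 * Real.exp (-X)) := by
        rw [← Real.exp_add]
        gcongr
        linarith
    _ = _ := by
        rw [hX, Real.mul_rpow (by positivity) hd.le]
        ring

end Pool.Agent.TH245.Peak
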