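import Pool.Agent.TH245.Peak.Gev

set_option autoImplicit false

open Metric Filter Topology Set MeasureTheory

namespace Pool.Agent.TH245.Peak

/-- Jensen: a lower bound for the circle averages of `log |F|`, uniform in the radius. -/
theorem jensen_lower {F : ℂ → ℂ} (hF : DifferentiableOn ℂ F (ball 0 1))
    (hne : ∃ z ∈ ball (0 : ℂ) 1, F z ≠ 0) :
    ∃ K : ℝ, ∀ R : ℝ, 1 / 2 ≤ R → R < 1 →
      -K ≤ ∫ θ in (0 : ℝ)..(2 * Real.pi), Real.log ‖F (circleMap 0 R θ)‖ := by
  have han : AnalyticOnNhd ℂ F (ball 0 1) := hF.analyticOnNhd isOpen_ball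
  have h0m : (0 : ℂ) ∈ ball (0 : ℂ) 1 := by simp
  have hord : meromorphicOrderAt F 0 ≠ ⊤ := by
    intro htop
    rw [(han 0 h0m).meromorphicOrderAt_eq] at htop
    have h1 : analyticOrderAt F 0 = ⊤ := by
      cases h : analyticOrderAt F 0 with
      | top => rfl
      | coe n => rw [h] at htop; simp at htop
    rw [analyticOrderAt_eq_top] at h1
    have h2 : EqOn F 0 (ball 0 1) :=
      han.eqOn_zero_of_preconnected_of_eventuallyEq_zero (convex_ball 0 1).isPreconnected h0m h1
    obtain ⟨z, hz, hz0⟩ := hne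
    exact hz0 (h2 hz)
  set N : ℤ := (meromorphicOrderAt F 0).untop₀ with hN
  have hN0 : 0 ≤ N := by
    rw [hN]
    have := (han 0 h0m).meromorphicOrderAt_nonneg
    lift meromorphicOrderAt F 0 to ℤ using hord with a
    simpa using this
  set A : ℝ := Real.log ‖meromorphicTrailingCoeffAt F 0‖ with hA
  refine ⟨2 * Real.pi * (N * Real.log 2 - A), fun R hR hR1 => ?_⟩
  have hR0 : 0 < R := by linarith
  have hsub : closedBall (0 : ℂ) |R| ⊆ ball 0 1 := by
    rw [abs_of_pos hR0]; exact closedBall_subset_ball hR1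
  have hanR : AnalyticOnNhd ℂ F (closedBall 0 |R|) := han.mono hsub
  have hJ := hanR.meromorphicOn.circleAverage_log_norm hR0.ne'
  have h1 : 0 ≤ ∑ᶠ u, (MeromorphicOn.divisor F (closedBall 0 |R|) u : ℝ) *
      Real.log (R * ‖(0 : ℂ) - u‖⁻¹) := by
    refine finsum_nonneg fun u => ?_
    have hd : 0 ≤ MeromorphicOn.divisor F (closedBall 0 |R|) u := MeromorphicOn.AnalyticOnNhd.divisor_nonneg hanR u
    by_cases hu : u ∈ closedBall (0 : ℂ) |R|
    · refine mul_nonneg (by exact_mod_cast hd) ?_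
      by_cases hu0 : u = 0
      · simp [hu0]
      · apply Real.log_nonneg
        rw [zero_sub, norm_neg]
        have hu1 : ‖u‖ ≤ R := by simpa [abs_of_pos hR0] using hu
        have hu2 : 0 < ‖u‖ := norm_pos_iff.2 hu0
        rw [← div_eq_mul_inv, le_div_iff₀ hu2]
        linarith
    · have : MeromorphicOn.divisor F (closedBall 0 |R|) u = 0 :=
        Function.locallyFinsuppWithin.apply_eq_zero_of_notMem _ hu
      simp [this]
  have h2 : (MeromorphicOn.divisor F (closedBall 0 |R|) 0 : ℤ) = N := by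
    rw [hanR.meromorphicOn.divisor_apply (by simp)]
  rw [h2] at hJ
  have h3 : -Real.log 2 ≤ Real.log R := by
    rw [← Real.log_inv]
    apply Real.log_le_log (by norm_num)
    linarith
  have h4 : (N : ℝ) * -Real.log 2 ≤ N * Real.log R := by
    apply mul_le_mul_of_nonneg_left h3
    exact_mod_cast hN0
  have h5 : A - N * Real.log 2 ≤ Real.circleAverage (fun z => Real.log ‖F z‖) 0 R := by
    rw [hJ]
    linarith
  rw [Real.circleAverage_def, smul_eq_mul] at h5
  have hpi : 0 < 2 * Real.pi := by positivity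
  have h6 := mul_le_mul_of_nonneg_left h5 hpi.le
  rw [← mul_assoc, mul_inv_cancel₀ hpi.ne', one_mul] at h6
  linarith

/-- Almost every point of a circle is not a zero of an analytic function. -/
theorem ae_ne_zero {F : ℂ → ℂ} (hF : DifferentiableOn ℂ F (ball 0 1))
    (hne : ∃ z ∈ ball (0 : ℂ) 1, F z ≠ 0) {R : ℝ} (hR : 0 < R) (hR1 : R < 1) :
    ∀ᵐ θ : ℝ, F (circleMap 0 R θ) ≠ 0 := by
  have han : AnalyticOnNhd ℂ F (ball 0 1) := hF.analyticOnNhd isOpen_ball
  rcases han.eqOn_zero_or_eventually_ne_zero_of_preconnected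
    (convex_ball (0 : ℂ) 1).isPreconnected with h | h
  · obtain ⟨z, hz, hz0⟩ := hne
    exact absurd (h hz) hz0
  · have h1 : {x : ℂ | F x ≠ 0} ∈ codiscreteWithin (sphere (0 : ℂ) |R|) := by
      refine codiscreteWithin_mono ?_ h
      rw [abs_of_pos hR]
      intro x hx
      rw [mem_ball_zero_iff]
      rw [mem_sphere_zero_iff_norm] at hx
      linarith
    have h2 := circleMap_preimage_codiscrete (c := 0) hR.ne' h1
    have h3 := ae_restrict_le_codiscreteWithin (μ := (volume : Measure ℝ)) MeasurableSet.univ h2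
    rw [Measure.restrict_univ] at h3
    exact h3

end Pool.Agent.TH245.Peak
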