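import Pool.Agent.TH245.Peak.Defs

set_option autoImplicit false

open Metric Filter Topology Set
open scoped ComplexConjugate

namespace Pool.Agent.TH245.Peak

/-! ### elementary facts on the closed right half plane -/

theorem norm_le_add {w : ℂ} (hw : 0 ≤ w.re) {s : ℝ} (hs : 0 ≤ s) : ‖w‖ ≤ ‖w + s‖ := by
  rw [← sq_le_sq₀ (norm_nonneg _) (norm_nonneg _), ← Complex.normSq_eq_norm_sq,
    ← Complex.normSq_eq_norm_sq, Complex.normSq_apply, Complex.normSq_apply]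
  simp only [Complex.add_re, Complex.ofReal_re, Complex.add_im, Complex.ofReal_im, add_zero]
  nlinarith

theorem s_le_add {w : ℂ} (hw : 0 ≤ w.re) {s : ℝ} : s ≤ ‖w + s‖ := by
  have h := Complex.re_le_norm (w + s)
  simp only [Complex.add_re, Complex.ofReal_re] at h
  linarith

theorem re_inv_nonneg {w : ℂ} (hw : 0 ≤ w.re) : 0 ≤ (w⁻¹).re := by
  rw [Complex.inv_re]
  exact div_nonneg hw (Complex.normSq_nonneg _)

theorem re_inv_add {w : ℂ} (hw : 0 ≤ w.re) {s : ℝ} (hs : 0 < s) :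
    s / (‖w‖ + s) ^ 2 ≤ ((w + s)⁻¹).re := by
  have h1 : s ≤ ‖w + s‖ := s_le_add hw
  have h2 : ‖w + s‖ ≤ ‖w‖ + s := by
    refine (norm_add_le _ _).trans ?_
    rw [Complex.norm_real, Real.norm_of_nonneg hs.le]
  rw [Complex.inv_re, Complex.normSq_eq_norm_sq]
  simp only [Complex.add_re, Complex.ofReal_re]
  have h3 : 0 < ‖w + s‖ := hs.trans_le h1
  apply div_le_div₀ (by linarith) (by linarith) (by positivity)
  gcongr

theorem norm_w {z ζ : ℂ} (hz : ‖z‖ = 1) : ‖1 - conj z * ζ‖ = ‖z - ζ‖ := by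
  have h : conj z * z = 1 := by
    rw [← Complex.normSq_eq_conj_mul_self, Complex.normSq_eq_norm_sq, hz]; norm_num
  have e : 1 - conj z * ζ = conj z * (z - ζ) := by rw [mul_sub, h]
  rw [e, norm_mul, Complex.norm_conj, hz, one_mul]

theorem re_w {z ζ : ℂ} (hz : ‖z‖ = 1) (hζ : ‖ζ‖ ≤ 1) : 0 ≤ (1 - conj z * ζ).re := by
  have h := Complex.re_le_norm (conj z * ζ)
  rw [norm_mul, Complex.norm_conj, hz, one_mul] at h
  simp only [Complex.sub_re, Complex.one_re]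
  linarith

/-- The data of the construction. -/
structure Dat (β κ : ℝ) (ι : Type) where
  ρ : ι → ℝ
  z : ι → ℂ
  hβ : 1 < β
  hκ : 0 < κ
  ρ0 : ∀ n, 0 < ρ n
  z1 : ∀ n, ‖z n‖ = 1
  zρ : ∀ n, ‖1 - z n‖ = ρ n
  small : ∀ n, ρ n ^ (β - 1) ≤ 1 / 32
  summ : Summable (fun n => ρ n ^ (β - 1))
  key : ∀ x : ℝ, 0 < x → x ≤ 2 → ∃ k : ι, (∀ n, n ≠ k → 2 * κ * x ^ β ≤ |x - ρ n|) ∧
    ∀ F : Finset ι, k ∉ F → ∑ n ∈ F, ρ n ^ (β - 1) / |x - ρ n| ≤ 1 / (4 * x)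

namespace Dat

variable {β κ : ℝ} {ι : Type} (D : Dat β κ ι)

/-- masses -/
noncomputable def m (n : ι) : ℝ := D.ρ n ^ (β - 1)

/-- local scales -/
noncomputable def s (n : ι) : ℝ := D.ρ n ^ β

lemma m0 (n : ι) : 0 < D.m n := Real.rpow_pos_of_pos (D.ρ0 n) _
lemma s0 (n : ι) : 0 < D.s n := Real.rpow_pos_of_pos (D.ρ0 n) _
lemma m_le (n : ι) : D.m n ≤ 1 / 32 := D.small n
lemma s_eq (n : ι) : D.s n = D.m n * D.ρ n := by
  unfold s m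
  rw [← Real.rpow_add_one (D.ρ0 n).ne']
  congr 1; ring

/-- the `n`-th term -/
noncomputable def T (n : ι) (ζ : ℂ) : ℂ :=
  (D.m n : ℂ) * ((1 - conj (D.z n) * ζ)⁻¹ + (1 - conj (D.z n) * ζ + (D.s n : ℂ))⁻¹)

/-- the function with positive real part -/
noncomputable def h (ζ : ℂ) : ℂ := (1 - ζ)⁻¹ + ∑' n, D.T n ζ

/-- the exceptional set -/
def E : Set ℂ := insert 1 (range D.z)

lemma T_norm {ζ : ℂ} (hζ : ‖ζ‖ ≤ 1) {n : ι} (hn : ζ ≠ D.z n) :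
    ‖D.T n ζ‖ ≤ 2 * D.m n / ‖D.z n - ζ‖ := by
  have hw := re_w (D.z1 n) hζ
  have hN := norm_w (ζ := ζ) (D.z1 n)
  have h0 : 0 < ‖D.z n - ζ‖ := norm_pos_iff.2 (sub_ne_zero.2 (Ne.symm hn))
  have h1 := norm_le_add hw (D.s0 n).le
  rw [hN] at h1
  unfold T
  rw [norm_mul, Complex.norm_real, Real.norm_of_nonneg (D.m0 n).le]
  have h2 : ‖(1 - conj (D.z n) * ζ)⁻¹ + (1 - conj (D.z n) * ζ + (D.s n : ℂ))⁻¹‖
      ≤ 1 / ‖D.z n - ζ‖ + 1 / ‖D.z n - ζ‖ := by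
    refine (norm_add_le _ _).trans ?_
    rw [norm_inv, norm_inv, hN, ← one_div, ← one_div]
    gcongr
  calc D.m n * _ ≤ D.m n * (1 / ‖D.z n - ζ‖ + 1 / ‖D.z n - ζ‖) :=
        mul_le_mul_of_nonneg_left h2 (D.m0 n).le
    _ = _ := by ring

lemma T_re_nonneg {ζ : ℂ} (hζ : ‖ζ‖ ≤ 1) (n : ι) : 0 ≤ (D.T n ζ).re := by
  have hw := re_w (D.z1 n) hζ
  unfold T
  rw [Complex.re_ofReal_mul, Complex.add_re]
  have h1 := re_inv_nonneg hw
  have h2 : 0 ≤ ((1 - conj (D.z n) * ζ + (D.s n : ℂ))⁻¹).re := by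
    apply re_inv_nonneg
    simp only [Complex.add_re, Complex.ofReal_re]
    have := (D.s0 n)
    linarith
  exact mul_nonneg (D.m0 n).le (by linarith)

lemma T_re_lower {ζ : ℂ} (hζ : ‖ζ‖ ≤ 1) (n : ι) :
    D.m n * (D.s n / (‖D.z n - ζ‖ + D.s n) ^ 2) ≤ (D.T n ζ).re := by
  have hw := re_w (D.z1 n) hζ
  have hN := norm_w (ζ := ζ) (D.z1 n)
  unfold T
  rw [Complex.re_ofReal_mul, Complex.add_re]
  have h1 := re_inv_nonneg hw
  have h2 := re_inv_add hw (D.s0 n)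
  rw [hN] at h2
  exact mul_le_mul_of_nonneg_left (by linarith) (D.m0 n).le

lemma dist_lower (ζ : ℂ) (n : ι) : |‖1 - ζ‖ - D.ρ n| ≤ ‖D.z n - ζ‖ := by
  rw [← D.zρ n]
  refine (abs_norm_sub_norm_le _ _).trans (le_of_eq ?_)
  congr 1; ring

lemma x_bd {ζ : ℂ} (hζ : ‖ζ‖ ≤ 1) (h1 : ζ ≠ 1) : 0 < ‖1 - ζ‖ ∧ ‖1 - ζ‖ ≤ 2 := by
  constructor
  · exact norm_pos_iff.2 (sub_ne_zero.2 (Ne.symm h1))
  · refine (norm_sub_le _ _).trans ?_
    rw [norm_one]; linarith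

/-- all terms but one are controlled -/
lemma exists_k {ζ : ℂ} (hζ : ‖ζ‖ ≤ 1) (h1 : ζ ≠ 1) :
    ∃ k : ι, (∀ n, n ≠ k → 2 * κ * ‖1 - ζ‖ ^ β ≤ |‖1 - ζ‖ - D.ρ n|) ∧
      (∀ n, n ≠ k → D.m n / ‖D.z n - ζ‖ ≤ 1 / (4 * ‖1 - ζ‖)) ∧
      ∀ F : Finset ι, k ∉ F → ∑ n ∈ F, D.m n / ‖D.z n - ζ‖ ≤ 1 / (4 * ‖1 - ζ‖) := by
  obtain ⟨hx0, hx2⟩ := x_bd hζ h1
  obtain ⟨k, hk1, hk2⟩ := D.key _ hx0 hx2
  have hF : ∀ F : Finset ι, k ∉ F → ∑ n ∈ F, D.m n / ‖D.z n - ζ‖ ≤ 1 / (4 * ‖1 - ζ‖) := by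
    intro F hF
    refine le_trans (Finset.sum_le_sum fun n hn => ?_) (hk2 F hF)
    have hnk : n ≠ k := fun h => hF (h ▸ hn)
    have h2 := hk1 n hnk
    have h3 : 0 < 2 * κ * ‖1 - ζ‖ ^ β := by have := D.hκ; positivity
    exact div_le_div_of_nonneg_left (D.m0 n).le (h3.trans_le h2) (D.dist_lower ζ n)
  refine ⟨k, hk1, fun n hn => ?_, hF⟩
  have := hF {n} (by simpa using hn.symm)
  simpa using this

lemma ne_of_ne_k {ζ : ℂ} (h1 : ζ ≠ 1) {n : ι}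
    (h : 2 * κ * ‖1 - ζ‖ ^ β ≤ |‖1 - ζ‖ - D.ρ n|) : ζ ≠ D.z n := by
  rintro rfl
  rw [D.zρ n] at h
  have := D.ρ0 n
  have := D.hκ
  rw [sub_self, abs_zero] at h
  have h3 : 0 < 2 * κ * D.ρ n ^ β := by positivity
  linarith

lemma summable_T {ζ : ℂ} (hζ : ‖ζ‖ ≤ 1) (h1 : ζ ≠ 1) : Summable (fun n => ‖D.T n ζ‖) := by
  classical
  obtain ⟨k, hk1, -, hk3⟩ := D.exists_k hζ h1
  apply summable_of_sum_le (c := 2 * (1 / (4 * ‖1 - ζ‖)) + ‖D.T k ζ‖) (fun n => norm_nonneg _)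
  intro F
  have h2 : ∑ n ∈ F, ‖D.T n ζ‖ ≤ ∑ n ∈ F.erase k, ‖D.T n ζ‖ + ‖D.T k ζ‖ := by
    by_cases hk : k ∈ F
    · rw [Finset.sum_erase_add _ _ hk]
    · rw [Finset.erase_eq_of_notMem hk]
      linarith [norm_nonneg (D.T k ζ)]
  refine h2.trans (add_le_add_left ?_ _)
  have h3 : ∑ n ∈ F.erase k, ‖D.T n ζ‖ ≤ ∑ n ∈ F.erase k, 2 * (D.m n / ‖D.z n - ζ‖) := by
    apply Finset.sum_le_sum
    intro n hn
    have hnk := Finset.ne_of_mem_erase hn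
    have := D.T_norm hζ (D.ne_of_ne_k h1 (hk1 n hnk))
    rwa [mul_div_assoc] at this
  rw [← Finset.mul_sum] at h3
  refine h3.trans ?_
  have := hk3 (F.erase k) (by simp)
  linarith

lemma h_re_ge {ζ : ℂ} (hζ : ‖ζ‖ ≤ 1) (h1 : ζ ≠ 1) (n : ι) :
    1 / 2 + (D.T n ζ).re ≤ (D.h ζ).re := by
  have hs := (D.summable_T hζ h1).of_norm
  unfold h
  rw [Complex.add_re, Complex.re_tsum hs]
  have h2 : (D.T n ζ).re ≤ ∑' i, (D.T i ζ).re :=
    (Complex.hasSum_re hs.hasSum).summable.le_tsum n (fun i _ => D.T_re_nonneg hζ i)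
  have h3 : 1 / 2 ≤ ((1 - ζ)⁻¹).re := by
    obtain ⟨hx0, -⟩ := x_bd hζ h1
    rw [Complex.inv_re, Complex.normSq_eq_norm_sq, le_div_iff₀ (by positivity),
      ← Complex.normSq_eq_norm_sq, Complex.normSq_apply]
    have h4 : ‖ζ‖ ^ 2 ≤ 1 := by
      have := norm_nonneg ζ
      nlinarith
    rw [← Complex.normSq_eq_norm_sq, Complex.normSq_apply] at h4
    simp only [Complex.sub_re, Complex.one_re, Complex.sub_im, Complex.one_im]
    nlinarith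
  linarith

/-- splitting off the `k`-th term -/
lemma h_split {ζ : ℂ} (hζ : ‖ζ‖ ≤ 1) (h1 : ζ ≠ 1) {k : ι}
    (hk1 : ∀ n, n ≠ k → 2 * κ * ‖1 - ζ‖ ^ β ≤ |‖1 - ζ‖ - D.ρ n|)
    (hk3 : ∀ F : Finset ι, k ∉ F → ∑ n ∈ F, D.m n / ‖D.z n - ζ‖ ≤ 1 / (4 * ‖1 - ζ‖)) :
    ∃ R : ℂ, ‖R‖ ≤ 1 / (2 * ‖1 - ζ‖) ∧ D.h ζ = (1 - ζ)⁻¹ + R + D.T k ζ := by
  classical
  have hs := (D.summable_T hζ h1)
  refine ⟨∑' n, if n = k then 0 else D.T n ζ, ?_, ?_⟩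
  · have h2 : ∀ F : Finset ι, ∑ n ∈ F, ‖(if n = k then 0 else D.T n ζ)‖ ≤ 1 / (2 * ‖1 - ζ‖) := by
      intro F
      have h3 : ∑ n ∈ F, ‖(if n = k then 0 else D.T n ζ)‖
          = ∑ n ∈ F.erase k, ‖D.T n ζ‖ := by
        rw [← Finset.sum_subset (Finset.erase_subset k F)]
        · apply Finset.sum_congr rfl
          intro n hn
          rw [if_neg (Finset.ne_of_mem_erase hn)]
        · intro n hn hn'
          have : n = k := by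
            by_contra hne
            exact hn' (Finset.mem_erase.2 ⟨hne, hn⟩)
          simp [this]
      rw [h3]
      have h4 : ∑ n ∈ F.erase k, ‖D.T n ζ‖ ≤ ∑ n ∈ F.erase k, 2 * (D.m n / ‖D.z n - ζ‖) := by
        apply Finset.sum_le_sum
        intro n hn
        have hnk := Finset.ne_of_mem_erase hn
        have := D.T_norm hζ (D.ne_of_ne_k h1 (hk1 n hnk))
        rwa [mul_div_assoc] at this
      rw [← Finset.mul_sum] at h4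
      refine h4.trans ?_
      have := hk3 (F.erase k) (by simp)
      calc _ ≤ 2 * (1 / (4 * ‖1 - ζ‖)) := by linarith
        _ = _ := by
          obtain ⟨hx0, -⟩ := x_bd hζ h1
          field_simp
          norm_num
    have hsn : Summable (fun n => ‖(if n = k then 0 else D.T n ζ)‖) := by
      refine hs.of_nonneg_of_le (fun n => norm_nonneg _) (fun n => ?_)
      by_cases hn : n = k
      · simp [hn]
      · rw [if_neg hn]
    exact (norm_tsum_le_tsum_norm hsn).trans (hsn.tsum_le_of_sum_le h2)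
  · unfold h
    rw [hs.of_norm.tsum_eq_add_tsum_ite k]
    ring

end Dat

end Pool.Agent.TH245.Peak
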