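import Pool.Agent.TH245.Peak.Lower

set_option autoImplicit false

open Metric Filter Topology Set
open scoped ComplexConjugate

namespace Pool.Agent.TH245.Peak.Dat

variable {β κ : ℝ} {ι : Type} (D : Dat β κ ι)

lemma T_norm_ge {ζ : ℂ} (hζ : ‖ζ‖ ≤ 1) (n : ι) :
    D.m n / ‖D.z n - ζ‖ - D.m n / D.s n ≤ ‖D.T n ζ‖ := by
  have hw := re_w (D.z1 n) hζ
  have hN := norm_w (ζ := ζ) (D.z1 n)
  have h1 : D.s n ≤ ‖1 - conj (D.z n) * ζ + (D.s n : ℂ)‖ := s_le_add hw
  unfold T
  rw [norm_mul, Complex.norm_real, Real.norm_of_nonneg (D.m0 n).le, div_eq_mul_inv,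
    div_eq_mul_inv, ← mul_sub]
  apply mul_le_mul_of_nonneg_left _ (D.m0 n).le
  have h2 := norm_sub_le_norm_add ((1 - conj (D.z n) * ζ)⁻¹)
    ((1 - conj (D.z n) * ζ + (D.s n : ℂ))⁻¹)
  rw [norm_inv, norm_inv, hN] at h2
  have h3 : ‖1 - conj (D.z n) * ζ + (D.s n : ℂ)‖⁻¹ ≤ (D.s n)⁻¹ := inv_anti₀ (D.s0 n) h1
  linarith

/-- **Main lower bound.** -/
theorem h_lower {ζ : ℂ} (hζ : ‖ζ‖ ≤ 1) (hE : ζ ∉ D.E) :
    1 / (5000 * ‖1 - ζ‖) ≤ ‖D.h ζ‖ ∧ ∀ n, D.m n / (5000 * ‖D.z n - ζ‖) ≤ ‖D.h ζ‖ := by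
  have h1 : ζ ≠ 1 := fun h => hE (by rw [h]; exact mem_insert _ _)
  have hnz : ∀ n, ζ ≠ D.z n := fun n h => hE (Or.inr ⟨n, h.symm⟩)
  obtain ⟨hx0, hx2⟩ := x_bd hζ h1
  obtain ⟨k, hk1, hk2, hk3⟩ := D.exists_k hζ h1
  obtain ⟨R, hR, hsplit⟩ := D.h_split hζ h1 hk1 hk3
  set x := ‖1 - ζ‖ with hx
  have ha0 : 0 < ‖D.z k - ζ‖ := norm_pos_iff.2 (sub_ne_zero.2 (Ne.symm (hnz k)))
  set a := ‖D.z k - ζ‖ with ha
  have hm0 := D.m0 k
  have hs0 := D.s0 k
  have hρ0 := D.ρ0 k
  have hse := D.s_eq k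
  have hm1 := D.m_le k
  set m := D.m k
  set s := D.s k
  set ρ := D.ρ k
  set B : ℂ := (1 - ζ)⁻¹ + R with hB
  have hinv : ‖(1 - ζ)⁻¹‖ = 1 / x := by rw [norm_inv, one_div]
  have hb1 : 1 / (2 * x) ≤ ‖B‖ := by
    have := norm_sub_le_norm_add ((1 - ζ)⁻¹) R
    rw [hinv] at this
    have e : 1 / x - 1 / (2 * x) = 1 / (2 * x) := by field_simp; norm_num
    linarith
  have hb2 : ‖B‖ ≤ 3 / (2 * x) := by
    have := norm_add_le ((1 - ζ)⁻¹) R
    rw [hinv] at this
    have e : 1 / x + 1 / (2 * x) = 3 / (2 * x) := by field_simp; norm_num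
    linarith
  have hT1 := D.T_norm hζ (hnz k)
  have hT2 := D.T_norm_ge hζ k
  have hh1 : ‖B‖ - ‖D.T k ζ‖ ≤ ‖D.h ζ‖ := by
    rw [hsplit]; exact norm_sub_le_norm_add _ _
  have hh2 : ‖D.T k ζ‖ - ‖B‖ ≤ ‖D.h ζ‖ := by
    rw [hsplit, add_comm]; exact norm_sub_le_norm_add _ _
  -- claim: `1/(180 x) ≤ |h|` and `m/(1080 a) ≤ |h|`
  have claim : 1 / (180 * x) ≤ ‖D.h ζ‖ ∧ m / (1080 * a) ≤ ‖D.h ζ‖ := by
    have e1 : 1 / (180 * x) = (1 / (2 * x)) / 90 := by field_simp; norm_num
    have e2 : m / (1080 * a) = (m / a) / 1080 := by field_simp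
    have hma0 : 0 < m / a := by positivity
    have hx3 : 0 < 1 / (2 * x) := by positivity
    rcases le_or_gt (4 * (m / a)) ‖B‖ with hc | hc
    · have h2 : 2 * m / a = 2 * (m / a) := by ring
      rw [h2] at hT1
      constructor
      · rw [e1]; linarith
      · rw [e2]; linarith
    · rcases le_or_gt (2 * (‖B‖ + m / s)) (m / a) with hc2 | hc2
      · have hms : 0 < m / s := by positivity
        constructor
        · rw [e1]; linarith
        · rw [e2]; linarith
      · -- the transition region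
        have h2 : a < 8 * m * x := by
          have h3 : 1 / (2 * x) < 4 * (m / a) := hb1.trans_lt hc
          rw [div_lt_iff₀ (by positivity)] at h3
          have h4 : 4 * (m / a) * (2 * x) = (8 * m * x) / a := by ring
          rw [h4, lt_div_iff₀ ha0] at h3
          linarith
        have h3 : a < x / 4 := by nlinarith
        have h4 := D.dist_lower ζ k
        rw [abs_le] at h4
        obtain ⟨h5, h6⟩ := h4
        have h7 : 3 / 4 * x ≤ ρ := by linarith
        have h8 : ρ ≤ 5 / 4 * x := by linarith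
        have h9 : a ≤ 11 * s := by
          rw [hse]
          nlinarith
        have h10 := D.h_re_ge hζ h1 k
        have h11 := D.T_re_lower hζ k
        have h12 : (D.h ζ).re ≤ ‖D.h ζ‖ := Complex.re_le_norm _
        have h13 : m / s = 1 / ρ := by
          rw [hse]
          field_simp
        have h14 : 1 / (180 * x) ≤ m * (s / (a + s) ^ 2) := by
          have h15 : s / (12 * s) ^ 2 ≤ s / (a + s) ^ 2 := by
            apply div_le_div_of_nonneg_left hs0.le (by positivity)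
            gcongr
            linarith
          calc 1 / (180 * x) = 1 / (144 * (5 / 4 * x)) := by ring
            _ ≤ 1 / (144 * ρ) := by gcongr
            _ = (1 / 144) * (m / s) := by rw [h13]; field_simp
            _ = m * (s / (12 * s) ^ 2) := by field_simp; norm_num
            _ ≤ _ := by gcongr
        have h16 : 1 / (180 * x) ≤ ‖D.h ζ‖ := by linarith
        refine ⟨h16, ?_⟩
        rw [e2]
        rw [h13] at hc2
        have h17 : 1 / ρ ≤ 1 / (3 / 4 * x) := by gcongr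
        have h18 : 1 / (3 / 4 * x) = (1 / (180 * x)) * 240 := by field_simp; norm_num
        have h19 : 3 / (2 * x) = (1 / (180 * x)) * 270 := by field_simp; norm_num
        have h20 : 0 < 1 / (180 * x) := by positivity
        linarith
  obtain ⟨c1, c2⟩ := claim
  constructor
  · refine le_trans ?_ c1
    gcongr
    norm_num
  · intro n
    by_cases hn : n = k
    · subst hn
      refine le_trans ?_ c2
      gcongr
      norm_num
    · have h2 := hk2 n hn
      have ha' : 0 < ‖D.z n - ζ‖ := norm_pos_iff.2 (sub_ne_zero.2 (Ne.symm (hnz n)))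
      have e1 : D.m n / (5000 * ‖D.z n - ζ‖) = (D.m n / ‖D.z n - ζ‖) / 5000 := by
        field_simp
      have e2 : 1 / (4 * x) = (1 / (180 * x)) * 45 := by field_simp; norm_num
      rw [e1]
      rw [e2] at h2
      have h20 : 0 < 1 / (180 * x) := by positivity
      linarith

end Pool.Agent.TH245.Peak.Dat
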