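import Mathlib

set_option autoImplicit false

open Filter Topology Set

namespace Pool.Agent.TH245.Peak.Con

noncomputable def p (J j : ℕ) : ℝ := ((j + J + 1 : ℕ) : ℝ)
noncomputable def r (J j : ℕ) : ℝ := (1 / 4 : ℝ) ^ (j + J + 1)
noncomputable def X (β : ℝ) (J j : ℕ) : ℝ := r J j ^ (1 - β) / p J j ^ β
noncomputable def N (β : ℝ) (J j : ℕ) : ℕ := ⌊X β J j⌋₊

lemma p1 (J j : ℕ) : 1 ≤ p J j := by unfold p; exact_mod_cast Nat.le_add_left 1 (j + J)
lemma p0 (J j : ℕ) : 0 < p J j := lt_of_lt_of_le one_pos (p1 J j)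
lemma r0 (J j : ℕ) : 0 < r J j := by unfold r; positivity
lemma r_le (J j : ℕ) : r J j ≤ 1 / 4 := by
  unfold r
  calc (1 / 4 : ℝ) ^ (j + J + 1) ≤ (1 / 4 : ℝ) ^ 1 := by
        apply pow_le_pow_of_le_one (by norm_num) (by norm_num) (by omega)
    _ = 1 / 4 := by norm_num
lemma X0 (β : ℝ) (J j : ℕ) : 0 < X β J j := by
  unfold X
  have := r0 J j
  have := p0 J j
  positivity

structure Good (β : ℝ) (J : ℕ) : Prop where
  P1 : ∀ j, 1 ≤ X β J j
  P2 : ∀ j, (2 * r J j) ^ (β - 1) ≤ 1 / 32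
  P3 : Summable (fun j => 2 ^ (β - 1) * p J j ^ (-β)) ∧
    ∑' j, 2 ^ (β - 1) * p J j ^ (-β) ≤ 1 / 32
  P4 : ∀ j, 8 / 3 * 2 ^ (β + 1) * p J j ^ (-β) * (1 + Real.log (X β J j)) ≤ 1 / 8

lemma r_pow (n : ℕ) (b : ℝ) : ((1 / 4 : ℝ) ^ n) ^ b = Real.exp (-(b * Real.log 4 * n)) := by
  rw [Real.rpow_def_of_pos (by positivity), Real.log_pow, one_div, Real.log_inv]
  congr 1
  ring

lemma ev1 {β : ℝ} (hβ : 1 < β) :
    ∀ᶠ n : ℕ in atTop, 1 ≤ ((1 / 4 : ℝ) ^ n) ^ (1 - β) / (n : ℝ) ^ β := by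
  have hc : 0 < (β - 1) * Real.log 4 := mul_pos (by linarith) (Real.log_pos (by norm_num))
  have h1 := (tendsto_exp_mul_div_rpow_atTop β _ hc).comp tendsto_natCast_atTop_atTop
  filter_upwards [h1.eventually_ge_atTop 1] with n hn
  simp only [Function.comp] at hn
  rw [r_pow]
  have e : -((1 - β) * Real.log 4 * (n : ℝ)) = (β - 1) * Real.log 4 * (n : ℝ) := by ring
  rw [e]
  exact hn

lemma ev2 {β : ℝ} (hβ : 1 < β) :
    ∀ᶠ n : ℕ in atTop, (2 * (1 / 4 : ℝ) ^ n) ^ (β - 1) ≤ 1 / 32 := by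
  have h1 : Tendsto (fun n : ℕ => (2 * (1 / 4 : ℝ) ^ n) ^ (β - 1)) atTop
      (𝓝 ((2 * 0) ^ (β - 1))) := by
    apply Tendsto.rpow_const
    · exact (tendsto_pow_atTop_nhds_zero_of_lt_one (by norm_num) (by norm_num)).const_mul 2
    · right; linarith
  rw [mul_zero, Real.zero_rpow (by linarith)] at h1
  exact (h1.eventually_lt_const (by norm_num)).mono fun n hn => hn.le

lemma ev4 {β : ℝ} (hβ : 1 < β) :
    ∀ᶠ n : ℕ in atTop, 8 / 3 * 2 ^ (β + 1) * (n : ℝ) ^ (-β) *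
      (1 + Real.log (((1 / 4 : ℝ) ^ n) ^ (1 - β) / (n : ℝ) ^ β)) ≤ 1 / 8 := by
  have h1 : Tendsto (fun n : ℕ => 8 / 3 * 2 ^ (β + 1) *
      ((n : ℝ) ^ (-β) + ((β - 1) * Real.log 4) * (n : ℝ) ^ (-(β - 1)))) atTop
      (𝓝 (8 / 3 * 2 ^ (β + 1) * (0 + ((β - 1) * Real.log 4) * 0))) := by
    apply Tendsto.const_mul
    apply Tendsto.add
    · exact (tendsto_rpow_neg_atTop (by linarith)).comp tendsto_natCast_atTop_atTop
    · apply Tendsto.const_mul
      exact (tendsto_rpow_neg_atTop (by linarith)).comp tendsto_natCast_atTop_atTop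
  rw [mul_zero, add_zero, mul_zero] at h1
  filter_upwards [h1.eventually_lt_const (show (0 : ℝ) < 1 / 8 by norm_num),
    eventually_ge_atTop 1] with n hn hn1
  refine le_trans ?_ hn.le
  have hn0 : (1 : ℝ) ≤ n := by exact_mod_cast hn1
  have hn00 : (0 : ℝ) < n := by linarith
  have h2 : Real.log (((1 / 4 : ℝ) ^ n) ^ (1 - β) / (n : ℝ) ^ β) ≤ (β - 1) * Real.log 4 * n := by
    rw [r_pow, Real.log_div (Real.exp_pos _).ne' (by positivity), Real.log_exp,
      Real.log_rpow hn00]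
    have : 0 ≤ β * Real.log n := mul_nonneg (by linarith) (Real.log_nonneg hn0)
    linarith
  have h3 : (n : ℝ) ^ (-(β - 1)) = (n : ℝ) ^ (-β) * n := by
    rw [← Real.rpow_add_one hn00.ne']; congr 1; ring
  rw [h3]
  calc 8 / 3 * 2 ^ (β + 1) * (n : ℝ) ^ (-β) *
      (1 + Real.log (((1 / 4 : ℝ) ^ n) ^ (1 - β) / (n : ℝ) ^ β))
      ≤ 8 / 3 * 2 ^ (β + 1) * (n : ℝ) ^ (-β) * (1 + (β - 1) * Real.log 4 * n) := by gcongr
    _ = _ := by ring

lemma ev3 {β : ℝ} (hβ : 1 < β) :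
    ∀ᶠ J : ℕ in atTop, Summable (fun j => 2 ^ (β - 1) * p J j ^ (-β)) ∧
      ∑' j, 2 ^ (β - 1) * p J j ^ (-β) ≤ 1 / 32 := by
  have h0 : Summable (fun n : ℕ => 2 ^ (β - 1) * (n : ℝ) ^ (-β)) :=
    (Real.summable_nat_rpow.2 (by linarith)).mul_left _
  have h1 : Tendsto (fun i => ∑' k, (fun n : ℕ => 2 ^ (β - 1) * (n : ℝ) ^ (-β)) (k + i))
      atTop (𝓝 0) := tendsto_sum_nat_add (fun n : ℕ => (2 : ℝ) ^ (β - 1) * (n : ℝ) ^ (-β))
  have h2 := h1.comp (tendsto_add_atTop_nat 1)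
  filter_upwards [h2.eventually_lt_const (show (0 : ℝ) < 1 / 32 by norm_num)] with J hJ
  constructor
  · have h3 := (summable_nat_add_iff (J + 1)).2 h0
    refine h3.congr fun j => ?_
    simp only [p]
    congr 3
  · refine le_trans (le_of_eq ?_) hJ.le
    simp only [Function.comp, p]
    rfl

lemma exists_good {β : ℝ} (hβ : 1 < β) : ∃ J, Good β J := by
  obtain ⟨a1, h1⟩ := eventually_atTop.1 (ev1 hβ)
  obtain ⟨a2, h2⟩ := eventually_atTop.1 (ev2 hβ)
  obtain ⟨a3, h3⟩ := eventually_atTop.1 (ev3 hβ)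
  obtain ⟨a4, h4⟩ := eventually_atTop.1 (ev4 hβ)
  refine ⟨a1 + a2 + a3 + a4, ?_, ?_, ?_, ?_⟩
  · intro j
    exact h1 _ (by omega)
  · intro j
    exact h2 _ (by omega)
  · exact h3 _ (by omega)
  · intro j
    exact h4 _ (by omega)

lemma harmonic_side (c N : ℕ) (hc : c ≤ N) :
    ∑ i ∈ Finset.range c, (1 : ℝ) / (i + 1) ≤ 1 + Real.log N := by
  rcases Nat.eq_zero_or_pos c with h | h
  · subst h
    simp only [Finset.range_zero, Finset.sum_empty]
    rcases Nat.eq_zero_or_pos N with h | h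
    · simp [h]
    · have : 0 ≤ Real.log N := Real.log_nonneg (by exact_mod_cast h)
      linarith
  · have h1 := harmonic_le_one_add_log c
    have h2 : ((harmonic c : ℚ) : ℝ) = ∑ i ∈ Finset.range c, (1 : ℝ) / (i + 1) := by
      unfold harmonic
      push_cast
      apply Finset.sum_congr rfl
      intro i _
      rw [one_div]
    rw [h2] at h1
    have h3 : Real.log c ≤ Real.log N := by
      apply Real.log_le_log (by exact_mod_cast h)
      exact_mod_cast hc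
    linarith

/-- The sum of the reciprocals of the distances to one of `N` consecutive integers. -/
lemma sum_inv_dist (N : ℕ) (c : Fin N) :
    ∑ i ∈ Finset.univ.erase c, (1 : ℝ) / |(i : ℝ) - (c : ℝ)| ≤ 2 * (1 + Real.log N) := by
  classical
  have h1 : ∑ i ∈ Finset.univ.erase c, (1 : ℝ) / |(i : ℝ) - (c : ℝ)|
      = ∑ i ∈ (Finset.range N).erase (c : ℕ), (1 : ℝ) / |(i : ℝ) - ((c : ℕ) : ℝ)| := by
    refine Finset.sum_bij (fun (i : Fin N) _ => (i : ℕ)) ?_ ?_ ?_ ?_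
    · intro i hi
      rw [Finset.mem_erase] at hi ⊢
      exact ⟨fun h => hi.1 (Fin.ext h), Finset.mem_range.2 i.2⟩
    · intro i _ j _ h
      exact Fin.ext h
    · intro i hi
      rw [Finset.mem_erase, Finset.mem_range] at hi
      exact ⟨⟨i, hi.2⟩, by
        rw [Finset.mem_erase]
        exact ⟨fun h => hi.1 (by rw [← h]), Finset.mem_univ _⟩, rfl⟩
    · intro i _
      rfl
  rw [h1]
  have hcN : (c : ℕ) < N := c.2
  have h2 : (Finset.range N).erase (c : ℕ) = Finset.range c ∪ Finset.Ico (c + 1) N := by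
    ext i
    simp only [Finset.mem_erase, Finset.mem_range, Finset.mem_union, Finset.mem_Ico]
    omega
  have h3 : Disjoint (Finset.range (c : ℕ)) (Finset.Ico ((c : ℕ) + 1) N) := by
    rw [Finset.disjoint_left]
    intro i hi
    simp only [Finset.mem_range, Finset.mem_Ico] at hi ⊢
    omega
  rw [h2, Finset.sum_union h3]
  have h4 : ∑ i ∈ Finset.range (c : ℕ), (1 : ℝ) / |(i : ℝ) - ((c : ℕ) : ℝ)|
      = ∑ i ∈ Finset.range (c : ℕ), (1 : ℝ) / (i + 1) := by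
    rw [← Finset.sum_range_reflect]
    apply Finset.sum_congr rfl
    intro i hi
    rw [Finset.mem_range] at hi
    congr 1
    have : ((c : ℕ) - 1 - i : ℕ) = ((c : ℕ) : ℝ) - 1 - i := by
      rw [Nat.cast_sub (by omega), Nat.cast_sub (by omega)]
      simp
    rw [this]
    have h5 : ((c : ℕ) : ℝ) - 1 - i - ((c : ℕ) : ℝ) = -((i : ℝ) + 1) := by ring
    rw [h5, abs_neg, abs_of_pos (by positivity)]
  have h6 : ∑ i ∈ Finset.Ico ((c : ℕ) + 1) N, (1 : ℝ) / |(i : ℝ) - ((c : ℕ) : ℝ)|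
      = ∑ i ∈ Finset.range (N - ((c : ℕ) + 1)), (1 : ℝ) / (i + 1) := by
    rw [Finset.sum_Ico_eq_sum_range]
    apply Finset.sum_congr rfl
    intro i _
    congr 1
    push_cast
    have h5 : ((c : ℕ) : ℝ) + 1 + i - ((c : ℕ) : ℝ) = (i : ℝ) + 1 := by ring
    rw [h5, abs_of_pos (by positivity)]
  rw [h4, h6]
  have h7 := harmonic_side (c : ℕ) N hcN.le
  have h8 := harmonic_side (N - ((c : ℕ) + 1)) N (by omega)
  linarith

end Pool.Agent.TH245.Peak.Con
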