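import Pool.Agent.TH245.Peak.Lower2

set_option autoImplicit false

open Metric Filter Topology Set
open scoped ComplexConjugate

namespace Pool.Agent.TH245.Peak.Dat

variable {β κ : ℝ} {ι : Type} (D : Dat β κ ι)

lemma tendsto_ρ : Tendsto D.ρ cofinite (𝓝 0) := by
  have h1 : Tendsto (fun n => D.ρ n ^ (β - 1)) cofinite (𝓝 0) := D.summ.tendsto_cofinite_zero
  have hb : 0 < β - 1 := by linarith [D.hβ]
  have h2 : Tendsto (fun n => (D.ρ n ^ (β - 1)) ^ (1 / (β - 1))) cofinite (𝓝 (0 ^ (1 / (β - 1)))) :=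
    h1.rpow_const (Or.inr (by positivity))
  rw [Real.zero_rpow (by positivity)] at h2
  refine h2.congr fun n => ?_
  rw [← Real.rpow_mul (D.ρ0 n).le, mul_one_div_cancel hb.ne', Real.rpow_one]

lemma tendsto_z : Tendsto D.z cofinite (𝓝 1) := by
  rw [tendsto_iff_norm_sub_tendsto_zero]
  refine D.tendsto_ρ.congr fun n => ?_
  rw [← D.zρ n, norm_sub_rev]

lemma isCompact_E : IsCompact D.E := D.tendsto_z.isCompact_insert_range_of_cofinite

lemma isClosed_E : IsClosed D.E := D.isCompact_E.isClosed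

lemma E_sub : D.E ⊆ sphere (0 : ℂ) 1 := by
  rintro ζ (h | ⟨n, rfl⟩)
  · rw [h]; simp
  · rw [mem_sphere_zero_iff_norm]; exact D.z1 n

lemma norm_le_of_E {ζ : ℂ} (h : ζ ∈ D.E) : ‖ζ‖ ≤ 1 := by
  have := D.E_sub h
  rw [mem_sphere_zero_iff_norm] at this
  exact this.le

lemma E_countable [Countable ι] : D.E.Countable := (countable_range D.z).insert _

/-- continuity of the terms -/
lemma T_cont (n : ι) {ζ : ℂ} (hζ : ‖ζ‖ ≤ 1) (hn : ζ ≠ D.z n) : ContinuousAt (D.T n) ζ := by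
  have hw := re_w (D.z1 n) hζ
  have hN := norm_w (ζ := ζ) (D.z1 n)
  have h0 : 1 - conj (D.z n) * ζ ≠ 0 := by
    rw [← norm_pos_iff, hN]
    exact norm_pos_iff.2 (sub_ne_zero.2 (Ne.symm hn))
  have h1 : 1 - conj (D.z n) * ζ + (D.s n : ℂ) ≠ 0 := by
    rw [← norm_pos_iff]
    exact (D.s0 n).trans_le (s_le_add hw)
  unfold T
  apply ContinuousAt.mul continuousAt_const
  apply ContinuousAt.add
  · exact ContinuousAt.inv₀ (by fun_prop) h0
  · exact ContinuousAt.inv₀ (by fun_prop) h1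

lemma T_diff (n : ι) {ζ : ℂ} (hζ : ‖ζ‖ < 1) : DifferentiableAt ℂ (D.T n) ζ := by
  have hw := re_w (D.z1 n) hζ.le
  have hN := norm_w (ζ := ζ) (D.z1 n)
  have hn : ζ ≠ D.z n := by
    rintro rfl
    rw [D.z1 n] at hζ
    exact lt_irrefl _ hζ
  have h0 : 1 - conj (D.z n) * ζ ≠ 0 := by
    rw [← norm_pos_iff, hN]
    exact norm_pos_iff.2 (sub_ne_zero.2 (Ne.symm hn))
  have h1 : 1 - conj (D.z n) * ζ + (D.s n : ℂ) ≠ 0 := by
    rw [← norm_pos_iff]
    exact (D.s0 n).trans_le (s_le_add hw)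
  unfold T
  apply DifferentiableAt.const_mul
  apply DifferentiableAt.add
  · exact DifferentiableAt.inv (by fun_prop) h0
  · exact DifferentiableAt.inv (by fun_prop) h1

/-- `h` is continuous on the closed disc off `E`. -/
lemma h_cont {ζ : ℂ} (hζ : ‖ζ‖ ≤ 1) (hE : ζ ∉ D.E) :
    ContinuousWithinAt D.h (closedBall 0 1) ζ := by
  have hne : D.E.Nonempty := ⟨1, mem_insert _ _⟩
  set δ : ℝ := infDist ζ D.E / 2 with hδ
  have hδ0 : 0 < δ := by
    have := (D.isClosed_E.notMem_iff_infDist_pos hne).1 hE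
    positivity
  set V : Set ℂ := closedBall 0 1 ∩ ball ζ δ with hV
  have hVd : ∀ w ∈ V, ∀ n, δ ≤ ‖D.z n - w‖ := by
    intro w hw n
    have h1 : infDist ζ D.E ≤ dist ζ (D.z n) := infDist_le_dist_of_mem (Or.inr ⟨n, rfl⟩)
    have h2 : dist w ζ < δ := hw.2
    have h3 : dist ζ (D.z n) ≤ dist w ζ + dist w (D.z n) := by
      rw [dist_comm w ζ]; exact dist_triangle _ _ _
    rw [← dist_eq_norm, dist_comm (D.z n)]
    linarith
  have hV1 : ∀ w ∈ V, w ≠ 1 := by
    rintro w hw rfl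
    have h1 : infDist ζ D.E ≤ dist ζ 1 := infDist_le_dist_of_mem (mem_insert _ _)
    have h2 : dist 1 ζ < δ := hw.2
    rw [dist_comm] at h2
    linarith
  have h1 : ContinuousOn (fun w => ∑' n, D.T n w) V := by
    apply continuousOn_tsum (u := fun n => 2 / δ * D.ρ n ^ (β - 1))
    · intro n w hw
      have hw1 : ‖w‖ ≤ 1 := by simpa using hw.1
      apply (D.T_cont n hw1 _).continuousWithinAt
      rintro rfl
      have := hVd _ hw n
      rw [sub_self, norm_zero] at this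
      linarith
    · exact D.summ.mul_left _
    · intro n w hw
      have hw1 : ‖w‖ ≤ 1 := by simpa using hw.1
      have h2 := hVd _ hw n
      have hn : w ≠ D.z n := by
        rintro rfl
        rw [sub_self, norm_zero] at h2
        linarith
      refine (D.T_norm hw1 hn).trans ?_
      have hm := D.m0 n
      calc 2 * D.m n / ‖D.z n - w‖ ≤ 2 * D.m n / δ := by gcongr
        _ = 2 / δ * D.ρ n ^ (β - 1) := by unfold m; ring
  have h2 : ContinuousOn D.h V := by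
    unfold h
    apply ContinuousOn.add _ h1
    apply ContinuousOn.inv₀ (by fun_prop)
    intro w hw
    exact sub_ne_zero.2 (hV1 w hw).symm
  have h3 : ζ ∈ V := ⟨by simpa using hζ, mem_ball_self hδ0⟩
  have h4 := h2 ζ h3
  rw [hV] at h4
  exact (continuousWithinAt_inter (ball_mem_nhds ζ hδ0)).1 h4

/-- `h` is analytic in the open disc. -/
lemma h_diff : DifferentiableOn ℂ D.h (ball 0 1) := by
  intro ζ hζ
  rw [mem_ball_zero_iff] at hζ
  set r : ℝ := (1 + ‖ζ‖) / 2 with hr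
  have hr1 : r < 1 := by rw [hr]; linarith
  have hrζ : ‖ζ‖ < r := by rw [hr]; linarith
  have h1 : DifferentiableOn ℂ (fun w => ∑' n, D.T n w) (ball 0 r) := by
    apply Complex.differentiableOn_tsum_of_summable_norm
      (u := fun n => 2 / (1 - r) * D.ρ n ^ (β - 1)) (D.summ.mul_left _)
    · intro n w hw
      rw [mem_ball_zero_iff] at hw
      exact (D.T_diff n (hw.trans hr1)).differentiableWithinAt
    · exact isOpen_ball
    · intro n w hw
      rw [mem_ball_zero_iff] at hw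
      have h2 : 1 - r ≤ ‖D.z n - w‖ := by
        have := norm_sub_norm_le (D.z n) w
        rw [D.z1 n] at this
        linarith
      have h3 : 0 < 1 - r := by linarith
      have hn : w ≠ D.z n := by
        rintro rfl
        rw [sub_self, norm_zero] at h2
        linarith
      refine (D.T_norm (hw.trans hr1).le hn).trans ?_
      have hm := D.m0 n
      calc 2 * D.m n / ‖D.z n - w‖ ≤ 2 * D.m n / (1 - r) := by gcongr
        _ = 2 / (1 - r) * D.ρ n ^ (β - 1) := by unfold m; ring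
  have h2 : DifferentiableOn ℂ D.h (ball 0 r) := by
    unfold h
    apply DifferentiableOn.add _ h1
    apply DifferentiableOn.inv (by fun_prop)
    intro w hw
    rw [mem_ball_zero_iff] at hw
    rw [sub_ne_zero]
    rintro rfl
    rw [norm_one] at hw
    linarith
  exact (h2.differentiableAt (isOpen_ball.mem_nhds (by simpa using hrζ))).differentiableWithinAt

open Classical in
/-- the reciprocal of `h`, extended by `0` to `E` -/
noncomputable def g (ζ : ℂ) : ℂ := if ζ ∈ D.E then 0 else (D.h ζ)⁻¹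

lemma g_E {ζ : ℂ} (h : ζ ∈ D.E) : D.g ζ = 0 := by unfold g; rw [if_pos h]
lemma g_nE {ζ : ℂ} (h : ζ ∉ D.E) : D.g ζ = (D.h ζ)⁻¹ := by unfold g; rw [if_neg h]

lemma g_le_one {ζ : ℂ} (hζ : ‖ζ‖ ≤ 1) : ‖D.g ζ‖ ≤ 5000 * ‖1 - ζ‖ := by
  by_cases hE : ζ ∈ D.E
  · rw [D.g_E hE, norm_zero]; positivity
  · rw [D.g_nE hE, norm_inv]
    have h1 : ζ ≠ 1 := fun h => hE (by rw [h]; exact mem_insert _ _)
    obtain ⟨hx0, -⟩ := x_bd hζ h1
    have := inv_anti₀ (by positivity) (D.h_lower hζ hE).1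
    rwa [one_div, inv_inv] at this

lemma g_le {ζ : ℂ} (hζ : ‖ζ‖ ≤ 1) (n : ι) : ‖D.g ζ‖ ≤ 5000 * ‖D.z n - ζ‖ / D.m n := by
  have hm := D.m0 n
  by_cases hE : ζ ∈ D.E
  · rw [D.g_E hE, norm_zero]; positivity
  · rw [D.g_nE hE, norm_inv]
    have h1 : ζ ≠ D.z n := fun h => hE (Or.inr ⟨n, h.symm⟩)
    have ha : 0 < ‖D.z n - ζ‖ := norm_pos_iff.2 (sub_ne_zero.2 (Ne.symm h1))
    have := inv_anti₀ (by positivity) ((D.h_lower hζ hE).2 n)
    rwa [inv_div] at this

lemma h_re {ζ : ℂ} (hζ : ‖ζ‖ ≤ 1) (hE : ζ ∉ D.E) : 1 / 2 ≤ (D.h ζ).re := by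
  have h1 : ζ ≠ 1 := fun h => hE (by rw [h]; exact mem_insert _ _)
  obtain ⟨k, -⟩ := D.exists_k hζ h1
  have := D.h_re_ge hζ h1 k
  linarith [D.T_re_nonneg hζ k]

lemma h_ne {ζ : ℂ} (hζ : ‖ζ‖ ≤ 1) (hE : ζ ∉ D.E) : D.h ζ ≠ 0 := by
  intro h
  have := D.h_re hζ hE
  rw [h, Complex.zero_re] at this
  linarith

lemma g_cont : ContinuousOn D.g (closedBall 0 1) := by
  have sq : ∀ ζ₀ ∈ D.E, ∀ C : ℝ, (∀ ζ ∈ closedBall (0 : ℂ) 1, ‖D.g ζ‖ ≤ C * ‖ζ₀ - ζ‖) →
      ContinuousWithinAt D.g (closedBall 0 1) ζ₀ := by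
    intro ζ₀ h0 C hC
    unfold ContinuousWithinAt
    rw [D.g_E h0]
    rw [tendsto_zero_iff_norm_tendsto_zero]
    refine squeeze_zero' (Eventually.of_forall fun _ => norm_nonneg _)
      (eventually_nhdsWithin_of_forall hC) ?_
    have : Tendsto (fun ζ : ℂ => C * ‖ζ₀ - ζ‖) (𝓝 ζ₀) (𝓝 (C * ‖ζ₀ - ζ₀‖)) := by
      apply Continuous.tendsto
      fun_prop
    rw [sub_self, norm_zero, mul_zero] at this
    exact this.mono_left nhdsWithin_le_nhds
  intro ζ hζ
  by_cases hE : ζ ∈ D.E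
  · rcases id hE with h | ⟨n, hn⟩
    · subst h
      exact sq 1 hE 5000 (fun w hw => D.g_le_one (by simpa using hw))
    · subst hn
      refine sq _ hE (5000 / D.m n) (fun w hw => ?_)
      have := D.g_le (ζ := w) (by simpa using hw) n
      rwa [mul_div_right_comm] at this
  · have hζ1 : ‖ζ‖ ≤ 1 := by simpa using hζ
    have h1 : ContinuousWithinAt (fun w => (D.h w)⁻¹) (closedBall 0 1) ζ :=
      (D.h_cont hζ1 hE).inv₀ (D.h_ne hζ1 hE)
    refine h1.congr_of_eventuallyEq ?_ (D.g_nE hE)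
    have h2 : ∀ᶠ w in 𝓝 ζ, w ∉ D.E := D.isClosed_E.isOpen_compl.mem_nhds hE
    filter_upwards [h2.filter_mono nhdsWithin_le_nhds] with w hw
    exact D.g_nE hw

lemma g_diff : DifferentiableOn ℂ D.g (ball 0 1) := by
  have h0 : ∀ ζ ∈ ball (0 : ℂ) 1, ζ ∉ D.E := by
    intro ζ hζ h
    have := D.E_sub h
    rw [mem_sphere_zero_iff_norm] at this
    rw [mem_ball_zero_iff] at hζ
    linarith
  have h1 : DifferentiableOn ℂ (fun w => (D.h w)⁻¹) (ball 0 1) := by
    apply D.h_diff.inv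
    intro ζ hζ
    exact D.h_ne (by rw [mem_ball_zero_iff] at hζ; exact hζ.le) (h0 ζ hζ)
  exact h1.congr fun ζ hζ => D.g_nE (h0 ζ hζ)

end Pool.Agent.TH245.Peak.Dat
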